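import Pool.Agent.T6.H81.BO.Defs
import Pool.Agent.T6.H81.BG.S5
import Pool.Agent.T6.H81.BG.S8
import Pool.Agent.T6.H81.BJ.GX

/-!
Module BPS: the condition for a pair of blocks, for a pencil of large rank.
-/

set_option autoImplicit false

namespace Pool.Agent.T6.H81.BO

open Finset Module Matrix
open Pool.Agent.H548.WM (ht bx mem_bx Rep)
open Pool.Agent.H548.BL (lat)
open Pool.Agent.H548.TL (evz)
open Pool.Agent.T6.H5.TW (fl MultiDeg)
open Pool.Agent.T6.H81.BG (Pt Zr cf mf)
open Pool.Agent.T6.H81.BJ (cvv)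
open Pool.Agent.T6.H81.BN (BP)

namespace ModBPS

/-- the sum over the elements with a property as a sum over an enumeration -/
theorem sum_enum {α M : Type} [Fintype α] [AddCommMonoid M] {P : α → Prop} [DecidablePred P]
    [Fintype {a // P a}] {k : ℕ} (f : Fin k ≃ {a // P a}) (H : α → M) :
    ∑ a ∈ univ.filter P, H a = ∑ i, H (f i).1 := by
  rw [f.sum_comp (fun a : {a // P a} => H a.1)]
  exact (Finset.sum_subtype (univ.filter P) (fun x => by simp) H)

variable {m K : ℕ} {n : Fin m → ℕ}

/-- the factor of the equation `e` -/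
noncomputable def bb (d : Fin K → Fin m → ℕ) (u v : Fin m) (c : Fin m → ℤ) (e : Fin K) : ℤ :=
  ∏ i, (if i = u ∨ i = v then 1 else c i) ^ d e i

theorem bb_ne (d : Fin K → Fin m → ℕ) (u v : Fin m) (c : Fin m → ℤ) (hc : ∀ i, c i ≠ 0)
    (e : Fin K) : bb d u v c e ≠ 0 := by
  unfold bb
  rw [Finset.prod_ne_zero_iff]
  intro i _
  apply pow_ne_zero
  split_ifs
  · exact one_ne_zero
  · exact hc i

theorem mf_smul (F : Fin K → MvPolynomial (Σ i, Fin (n i)) ℤ) (d : Fin K → Fin m → ℕ)
    (hF : ∀ e, MultiDeg (F e) (d e)) (u v : Fin m) (c : Fin m → ℤ)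
    (x y : Pt n) (hxy : ∀ i, x i = c i • y i) (e : Fin K) :
    mf F e u v x = bb d u v c e • mf F e u v y := by
  ext s t
  rw [Matrix.smul_apply, smul_eq_mul]
  unfold mf bb
  rw [Matrix.of_apply, Matrix.of_apply, ← BG.S8.evz_smul (hF e)]
  congr 2
  funext i
  by_cases hv : i = v
  · subst hv
    rw [Function.update_self, Function.update_self, if_pos (Or.inr rfl), one_smul]
  · rw [Function.update_of_ne hv, Function.update_of_ne hv]
    by_cases hu : i = u
    · subst hu
      rw [Function.update_self, Function.update_self, if_pos (Or.inl rfl), one_smul]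
    · rw [Function.update_of_ne hu, Function.update_of_ne hu, hxy, if_neg (by tauto)]

theorem mf_map (F : Fin K → MvPolynomial (Σ i, Fin (n i)) ℤ) (u v : Fin m) (y : Pt n)
    (R : Type) [CommRing R] (e : Fin K) :
    (mf F e u v y).map (Int.cast : ℤ → R) = mfR (F e) u v (fun i t => ((y i t : ℤ) : R)) := by
  ext s t
  rw [Matrix.map_apply]
  unfold mf mfR
  rw [Matrix.of_apply, Matrix.of_apply]
  have h1 := Pool.Agent.H548.TL.evz_map (Int.castRingHom R) (F e)
    (fl (Function.update (Function.update y u (Pi.single s 1)) v (Pi.single t 1)))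
  have h2 : ((evz (F e) (fl (Function.update (Function.update y u (Pi.single s 1)) v
      (Pi.single t 1))) : ℤ) : R) = (Int.castRingHom R) (evz (F e)
      (fl (Function.update (Function.update y u (Pi.single s 1)) v (Pi.single t 1)))) := rfl
  rw [h2, h1]
  congr 1
  funext q
  obtain ⟨i, a⟩ := q
  show ((Function.update (Function.update y u (Pi.single s 1)) v (Pi.single t 1) i a : ℤ) : R) =
    Function.update (Function.update (fun i t => ((y i t : ℤ) : R)) u (Pi.single s 1)) v
      (Pi.single t 1) i a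
  by_cases hv : i = v
  · subst hv
    rw [Function.update_self, Function.update_self]
    by_cases h : a = t
    · subst h
      rw [Pi.single_eq_same, Pi.single_eq_same, Int.cast_one]
    · rw [Pi.single_eq_of_ne h, Pi.single_eq_of_ne h, Int.cast_zero]
  · rw [Function.update_of_ne hv, Function.update_of_ne hv]
    by_cases hu : i = u
    · subst hu
      rw [Function.update_self, Function.update_self]
      by_cases h : a = s
      · subst h
        rw [Pi.single_eq_same, Pi.single_eq_same, Int.cast_one]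
      · rw [Pi.single_eq_of_ne h, Pi.single_eq_of_ne h, Int.cast_zero]
    · rw [Function.update_of_ne hu, Function.update_of_ne hu]

end ModBPS

open ModBPS in
open Classical in
/-- Module BPS. -/
theorem bPS (hPG : StmtPG) (hPC : StmtPC) : StmtBPS := by
  intro m K n F d hd hF hn u v huv hrk
  set A0 : Finset (Fin K) := univ.filter (fun e => d e u = 1 ∧ d e v = 1) with hA0
  have hA0m : ∀ e, e ∉ A0 ↔ ¬ (d e u = 1 ∧ d e v = 1) := fun e => by
    rw [hA0, mem_filter]
    simp
  set ku := ∑ e, d e u with hku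
  set sv := ∑ e, d e v * ∑ i, d e i with hsv
  obtain ⟨p, hp, hpr⟩ := hPG m K (ku + sv) n F u v A0 huv (fun s hs0 hs x hx => by
    refine hrk s (fun e he => ?_) hs x hx
    by_contra hcon
    exact he (hs0 e ((hA0m e).2 hcon)))
  -- the equations which contain both blocks
  set k := Fintype.card {e : Fin K // d e u = 1 ∧ d e v = 1} with hk
  let f : Fin k ≃ {e : Fin K // d e u = 1 ∧ d e v = 1} := (Fintype.equivFin _).symm
  -- the constants
  set E := n v - sv - 1 with hE
  have hnv : sv + 1 ≤ n v := hn v
  have hWk : ∀ k' : ℕ, ∃ C : ℝ, 0 ≤ C ∧ (k + k' ≤ ku →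
      ∀ M : Fin k → Matrix (Fin (n u)) (Fin (n v)) ℤ,
      (∀ s : Fin k → ZMod p, s ≠ 0 →
        ku + sv ≤ (∑ e, s e • (M e).map (Int.cast : ℤ → ZMod p)).rank) →
      ∀ (l : Fin k' → Fin (n u) → ℤ) (ρ : ℕ), 1 ≤ ρ →
      ((((bx (n v) ρ).filter fun z => ∃ (s : Fin k → ℤ) (t : Fin k' → ℤ), s ≠ 0 ∧
        ∑ e, s e • cvv M z e = ∑ i, t i • l i).card : ℕ) : ℝ) ≤ C * (ρ : ℝ) ^ E) := by
    intro k'
    by_cases hkk : k + k' ≤ ku
    · obtain ⟨C, hC, h3⟩ := hPC k (n u) (n v) k' (ku + sv) E p (by omega)
      refine ⟨C, hC, fun _ M hM l ρ hρ => ?_⟩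
      have h4 := h3 M hM l ρ hρ
      convert h4
    · exact ⟨0, le_rfl, fun h => absurd h hkk⟩
  choose C hC0 hC using hWk
  refine ⟨∑ k' ∈ range (ku + 1), C k', Finset.sum_nonneg fun k' _ => hC0 k', ?_⟩
  intro T hu hv x hx hli ρ hρ
  -- the primitive vectors
  have hprim : ∀ i, ∃ (c : ℤ) (y : Fin (n i) → ℤ), c ≠ 0 ∧ x i = c • y ∧
      ∃ j, ¬ (p : ℤ) ∣ y j := fun i => BJ.ModGX.prim p hp.out (x i) (hx i)
  choose c y hc hxy hy using hprim
  let b : Fin K → ℤ := bb d u v c
  have hb : ∀ e, b e ≠ 0 := bb_ne d u v c hc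
  let M : Fin k → Matrix (Fin (n u)) (Fin (n v)) ℤ := fun i => mf F (f i).1 u v y
  have hcf : ∀ (i : Fin k) (z : Fin (n v) → ℤ),
      cf F (f i).1 u (Function.update x v z) = b (f i).1 • cvv M z i := by
    intro i z
    rw [BG.S5.cf_mf hF huv (f i).2.2, mf_smul F d hF u v c x y hxy, Matrix.smul_mulVec]
    congr 1
  have hMr : ∀ s : Fin k → ZMod p, s ≠ 0 →
      ku + sv ≤ (∑ e, s e • (M e).map (Int.cast : ℤ → ZMod p)).rank := by
    intro s hs
    let S : Fin K → ZMod p := fun e =>
      if h : d e u = 1 ∧ d e v = 1 then s (f.symm ⟨e, h⟩) else 0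
    have hSf : ∀ i, S (f i).1 = s i := by
      intro i
      simp only [S]
      rw [dif_pos (f i).2]
      congr 1
      exact f.symm_apply_apply i
    have h1 := hpr S (fun e he => by
      simp only [S]
      rw [dif_neg ((hA0m e).1 he)]) (by
      intro h
      apply hs
      funext i
      rw [← hSf i, h]
      rfl) (fun i t => ((y i t : ℤ) : ZMod p)) (by
      intro i h
      obtain ⟨j, hj⟩ := hy i
      apply hj
      rw [← ZMod.intCast_zmod_eq_zero_iff_dvd]
      exact congrFun h j)
    have h2 : ∑ e, S e • mfR (F e) u v (fun i t => ((y i t : ℤ) : ZMod p)) =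
        ∑ e, s e • (M e).map (Int.cast : ℤ → ZMod p) := by
      have h3 : ∑ e, S e • mfR (F e) u v (fun i t => ((y i t : ℤ) : ZMod p)) =
          ∑ e ∈ A0, S e • mfR (F e) u v (fun i t => ((y i t : ℤ) : ZMod p)) := by
        symm
        apply Finset.sum_subset (Finset.subset_univ _)
        intro e _ he
        simp only [S]
        rw [dif_neg ((hA0m e).1 he), zero_smul]
      rw [h3, hA0, sum_enum f]
      refine Finset.sum_congr rfl fun i _ => ?_
      rw [hSf, ← mf_map]
    rw [h2] at h1
    exact h1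
  set k' := Fintype.card (BG.Eq d (T.erase v) u) with hk'
  let g : Fin k' ≃ BG.Eq d (T.erase v) u := (Fintype.equivFin _).symm
  -- the number of the equations
  have hkk : k + k' ≤ ku := by
    have e1 : k = (univ.filter (fun e : Fin K => d e u = 1 ∧ d e v = 1)).card := by
      rw [hk, Fintype.card_subtype]
    have e2 : k' = (univ.filter (fun e : Fin K =>
        (∀ i, i ∉ T.erase v → d e i = 0) ∧ d e u = 1)).card := by
      rw [hk', Fintype.card_subtype]
    have hdisj : Disjoint (univ.filter (fun e : Fin K => d e u = 1 ∧ d e v = 1))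
        (univ.filter (fun e : Fin K => (∀ i, i ∉ T.erase v → d e i = 0) ∧ d e u = 1)) := by
      rw [Finset.disjoint_left]
      intro e he1 he2
      have h3 := (mem_filter.1 he1).2.2
      have h4 := (mem_filter.1 he2).2.1 v (by simp)
      omega
    rw [e1, e2, ← Finset.card_union_of_disjoint hdisj, hku]
    rw [Finset.card_eq_sum_ones]
    calc ∑ e ∈ _, 1 ≤ ∑ e ∈ (univ.filter (fun e : Fin K => d e u = 1 ∧ d e v = 1)) ∪
          (univ.filter (fun e : Fin K => (∀ i, i ∉ T.erase v → d e i = 0) ∧ d e u = 1)), d e u := by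
          refine Finset.sum_le_sum fun e he => ?_
          rw [mem_union] at he
          rcases he with he | he
          · rw [(mem_filter.1 he).2.1]
          · rw [(mem_filter.1 he).2.2]
      _ ≤ _ := Finset.sum_le_sum_of_subset (subset_univ _)
  have hmain := hC k' hkk M hMr (fun i => cf F (g i).1 u x) ρ hρ
  have hCle : C k' ≤ ∑ k' ∈ range (ku + 1), C k' :=
    Finset.single_le_sum (f := C) (fun i _ => hC0 i) (mem_range.2 (by omega))
  refine le_trans ?_ (mul_le_mul_of_nonneg_right hCle (by positivity))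
  refine le_trans ?_ hmain
  have hsub : ((bx (n v) ρ).filter fun z => z ≠ 0 ∧ ¬ LinearIndependent ℤ
      (fun e : BG.Eq d T u => cf F e.1 u (Function.update x v z))) ⊆
      (bx (n v) ρ).filter fun z => ∃ (s : Fin k → ℤ) (t : Fin k' → ℤ), s ≠ 0 ∧
        ∑ e, s e • cvv M z e = ∑ i, t i • cf F (g i).1 u x := by
    intro z hz
    rw [mem_filter] at hz ⊢
    refine ⟨hz.1, ?_⟩
    have hdep := hz.2.2
    rw [Fintype.not_linearIndependent_iff] at hdep
    obtain ⟨γ, hγ, e0, he0⟩ := hdep
    -- extension by zero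
    let G : Fin K → ℤ := fun e =>
      if h : (∀ i, i ∉ T → d e i = 0) ∧ d e u = 1 then γ ⟨e, h⟩ else 0
    have hG : ∀ e : BG.Eq d T u, G e.1 = γ e := fun e => by
      simp only [G]
      rw [dif_pos e.2]
    set A : Finset (Fin K) := univ.filter (fun e => d e u = 1 ∧ d e v = 1) with hA
    set B : Finset (Fin K) :=
      univ.filter (fun e => (∀ i, i ∉ T.erase v → d e i = 0) ∧ d e u = 1) with hB
    have hdisj : Disjoint A B := by
      rw [Finset.disjoint_left]
      intro e he1 he2
      have h3 := (mem_filter.1 he1).2.2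
      have h4 := (mem_filter.1 he2).2.1 v (by simp)
      omega
    have hGz : ∀ e, e ∉ A → e ∉ B → G e = 0 := by
      intro e heA heB
      simp only [G]
      split_ifs with h
      · exfalso
        rcases Nat.lt_or_ge (d e v) 1 with h3 | h3
        · apply heB
          rw [hB, mem_filter]
          refine ⟨mem_univ _, fun i hi => ?_, h.2⟩
          by_cases hiv : i = v
          · rw [hiv]; omega
          · exact h.1 i (fun hT => hi (Finset.mem_erase.2 ⟨hiv, hT⟩))
        · apply heA
          rw [hA, mem_filter]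
          exact ⟨mem_univ _, h.2, by have := hd e v; omega⟩
      · rfl
    have hsum0 : ∑ e, G e • cf F e u (Function.update x v z) = 0 := by
      have e1 : ∑ e : BG.Eq d T u, γ e • cf F e.1 u (Function.update x v z) =
          ∑ e ∈ univ.filter (fun e : Fin K => (∀ i, i ∉ T → d e i = 0) ∧ d e u = 1),
            G e • cf F e u (Function.update x v z) := by
        rw [Finset.sum_subtype (univ.filter (fun e : Fin K =>
          (∀ i, i ∉ T → d e i = 0) ∧ d e u = 1)) (p := fun e : Fin K =>
          (∀ i, i ∉ T → d e i = 0) ∧ d e u = 1) (fun x => by simp)]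
        refine Finset.sum_congr rfl fun e _ => ?_
        rw [hG]
      rw [← hγ, e1]
      symm
      apply Finset.sum_subset (Finset.subset_univ _)
      intro e _ he
      have : G e = 0 := by
        simp only [G]
        rw [dif_neg]
        intro h
        exact he (mem_filter.2 ⟨mem_univ _, h⟩)
      rw [this, zero_smul]
    have hsplit : ∑ e, G e • cf F e u (Function.update x v z) =
        ∑ e ∈ A, G e • cf F e u (Function.update x v z) +
          ∑ e ∈ B, G e • cf F e u (Function.update x v z) := by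
      rw [← Finset.sum_union hdisj]
      symm
      apply Finset.sum_subset (Finset.subset_univ _)
      intro e _ he
      rw [mem_union, not_or] at he
      rw [hGz e he.1 he.2, zero_smul]
    have hAs : ∑ e ∈ A, G e • cf F e u (Function.update x v z) =
        ∑ i, (G (f i).1 * b (f i).1) • cvv M z i := by
      rw [hA, sum_enum f]
      refine Finset.sum_congr rfl fun i _ => ?_
      rw [hcf i z, smul_smul]
    have hBs : ∑ e ∈ B, G e • cf F e u (Function.update x v z) =
        ∑ i, G (g i).1 • cf F (g i).1 u x := by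
      rw [hB, sum_enum g]
      refine Finset.sum_congr rfl fun i _ => ?_
      rw [BG.S5.cf_indep hF huv ((g i).2.1 v (by simp))]
    rw [hsplit, hAs, hBs] at hsum0
    refine ⟨fun i => G (f i).1 * b (f i).1, fun i => -G (g i).1, ?_, ?_⟩
    · intro hs0
      have hfz : ∀ i, G (f i).1 = 0 := fun i => by
        have h9 : G (f i).1 * b (f i).1 = 0 := congrFun hs0 i
        exact (mul_eq_zero.1 h9).resolve_right (hb _)
      have h5 : ∑ i, G (g i).1 • cf F (g i).1 u x = 0 := by
        have : ∑ i, (G (f i).1 * b (f i).1) • cvv M z i = 0 :=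
          Finset.sum_eq_zero fun i _ => by rw [hfz i, zero_mul, zero_smul]
        rwa [this, zero_add] at hsum0
      rw [Fintype.linearIndependent_iff] at hli
      have h6 := hli (fun e => G e.1) (by
        rw [← g.sum_comp]
        exact h5)
      apply he0
      rw [← hG]
      by_cases hcA : e0.1 ∈ A
      · have h7 := hfz (f.symm ⟨e0.1, (mem_filter.1 hcA).2⟩)
        rwa [Equiv.apply_symm_apply] at h7
      · by_cases hcB : e0.1 ∈ B
        · exact h6 ⟨e0.1, (mem_filter.1 hcB).2⟩
        · exact hGz _ hcA hcB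
    · simp only [neg_smul, Finset.sum_neg_distrib]
      exact eq_neg_of_add_eq_zero_left hsum0
  exact_mod_cast card_le_card hsub

end Pool.Agent.T6.H81.BO
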