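import Mathlib
import Pool.Agent.T6.H81.BN.Defs

/-!
Systems of multilinear equations with pencils of large rank, and smooth complete intersections of
divisors of type `(1, 1, 1)`: definitions, and the statements of the modules.
-/

set_option autoImplicit false

namespace Pool.Agent.T6.H81.BO

open Finset Module Matrix
open Pool.Agent.H548.WM (ht bx mem_bx Rep)
open Pool.Agent.H548.BL (lat)
open Pool.Agent.H548.TL (evz)
open Pool.Agent.T6.H5.TW (fl MultiDeg)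
open Pool.Agent.T6.H81.BG (Pt Zr cf)
open Pool.Agent.T6.H81.BJ (cvv StmtGP)
open Pool.Agent.T6.H81.BN (BP)

/-- The matrix of the polynomial `p` as a bilinear form in the blocks `u` and `v`. The other
coordinates are those of `x`. -/
noncomputable def mfR {R : Type*} [CommRing R] {m : ℕ} {n : Fin m → ℕ}
    (p : MvPolynomial (Σ i, Fin (n i)) ℤ) (u v : Fin m) (x : ∀ i, Fin (n i) → R) :
    Matrix (Fin (n u)) (Fin (n v)) R :=
  Matrix.of fun s t =>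
    evz p (fl (Function.update (Function.update x u (Pi.single s 1)) v (Pi.single t 1)))

open Classical in
/-- Module PC: few `z` for which the vectors `M e * z` are dependent modulo given vectors, for a
pencil of large rank modulo a prime. -/
def StmtPC : Prop := ∀ (k N1 N2 k' R E p : ℕ) [Fact p.Prime], k + k' + N2 ≤ R + E + 1 →
  ∃ C : ℝ, 0 ≤ C ∧ ∀ M : Fin k → Matrix (Fin N1) (Fin N2) ℤ,
    (∀ s : Fin k → ZMod p, s ≠ 0 →
      R ≤ (∑ e, s e • (M e).map (Int.cast : ℤ → ZMod p)).rank) →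
    ∀ (l : Fin k' → Fin N1 → ℤ) (ρ : ℕ), 1 ≤ ρ →
      ((((bx N2 ρ).filter fun z => ∃ (s : Fin k → ℤ) (t : Fin k' → ℤ), s ≠ 0 ∧
        ∑ e, s e • cvv M z e = ∑ i, t i • l i).card : ℕ) : ℝ) ≤ C * (ρ : ℝ) ^ E

/-- Module PG: a good prime for a pencil. -/
def StmtPG : Prop := ∀ (m K R : ℕ) (n : Fin m → ℕ) (F : Fin K → MvPolynomial (Σ i, Fin (n i)) ℤ)
  (u v : Fin m) (A : Finset (Fin K)), u ≠ v →
  (∀ s : Fin K → ℂ, (∀ e, e ∉ A → s e = 0) → s ≠ 0 → ∀ x : ∀ i, Fin (n i) → ℂ, (∀ i, x i ≠ 0) →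
    R ≤ (∑ e, s e • mfR (F e) u v x).rank) →
  ∃ (p : ℕ) (_ : Fact p.Prime), ∀ s : Fin K → ZMod p, (∀ e, e ∉ A → s e = 0) → s ≠ 0 →
    ∀ x : ∀ i, Fin (n i) → ZMod p, (∀ i, x i ≠ 0) → R ≤ (∑ e, s e • mfR (F e) u v x).rank

/-- Module BPS: the condition for a pair of blocks, for a pencil of large rank. -/
def StmtBPS : Prop := ∀ (m K : ℕ) (n : Fin m → ℕ) (F : Fin K → MvPolynomial (Σ i, Fin (n i)) ℤ)
  (d : Fin K → Fin m → ℕ), (∀ e v, d e v ≤ 1) → (∀ e, MultiDeg (F e) (d e)) →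
  (∀ v, ∑ e, d e v * ∑ u, d e u + 1 ≤ n v) →
  ∀ u v, u ≠ v →
  (∀ s : Fin K → ℂ, (∀ e, s e ≠ 0 → d e u = 1 ∧ d e v = 1) → s ≠ 0 →
    ∀ x : ∀ i, Fin (n i) → ℂ, (∀ i, x i ≠ 0) →
      ∑ e', d e' u + ∑ e', d e' v * ∑ i, d e' i ≤ (∑ e, s e • mfR (F e) u v x).rank) →
  BP F d u v

/-- Module SEG: common zeros of bilinear forms. -/
def StmtSEG : Prop := ∀ (a b j : ℕ) (B : Fin j → Matrix (Fin (a + 1)) (Fin (b + 1)) ℂ),
  j ≤ a + b → ∃ (y : Fin (a + 1) → ℂ) (z : Fin (b + 1) → ℂ), y ≠ 0 ∧ z ≠ 0 ∧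
    ∀ i, y ⬝ᵥ (B i *ᵥ z) = 0

/-- Module SR: the ranks of smooth complete intersections of divisors of type `(1, 1, 1)`. -/
def StmtSR : Prop := ∀ (k : ℕ) (n : Fin 3 → ℕ) (F : Fin k → MvPolynomial (Σ i, Fin (n i)) ℤ),
  (∀ e, MultiDeg (F e) (fun _ => 1)) →
  (∀ z : ∀ v, Fin (n v) → ℂ, (∀ v, z v ≠ 0) → Zr F z →
    LinearIndependent ℂ (fun (e : Fin k) (v : Fin 3) => cf F e v z)) →
  ∀ u v w : Fin 3, u ≠ v → u ≠ w → v ≠ w → ∀ R : ℕ, R ≤ n u → R ≤ n v →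
    2 * R + n w + k ≤ n u + n v + 1 →
    ∀ s : Fin k → ℂ, s ≠ 0 → ∀ x : ∀ i, Fin (n i) → ℂ, x w ≠ 0 →
      R ≤ (∑ e, s e • mfR (F e) u v x).rank

end Pool.Agent.T6.H81.BO
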