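import Mathlib
import Pool.Agent.T6.H81.BO.Defs

/-!
Smooth complete intersections of multilinear divisors: pairs of blocks whose common equations
contain at most one further block.
-/

set_option autoImplicit false

namespace Pool.Agent.T6.H81.BO

open Finset Module Matrix
open Pool.Agent.H548.TL (evz)
open Pool.Agent.T6.H5.TW (fl MultiDeg)
open Pool.Agent.T6.H81.BG (Pt Zr cf)

/-- Module SR3: the ranks of the pencils of a smooth complete intersection of multilinear divisors,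
for a pair of blocks whose common equations contain at most one further block. -/
def StmtSR3 : Prop := ∀ (m K : ℕ) (n : Fin m → ℕ) (F : Fin K → MvPolynomial (Σ i, Fin (n i)) ℤ)
  (d : Fin K → Fin m → ℕ), (∀ e v, d e v ≤ 1) → (∀ e, MultiDeg (F e) (d e)) →
  (∀ e, 2 ≤ ∑ v, d e v) → (∀ v, ∑ e, d e v + 1 ≤ n v) →
  (∀ z : ∀ v, Fin (n v) → ℂ, (∀ v, z v ≠ 0) → Zr F z →
    LinearIndependent ℂ (fun (e : Fin K) (v : Fin m) => cf F e v z)) →
  ∀ u v w : Fin m, u ≠ v → u ≠ w → v ≠ w →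
    (∀ e, d e u = 1 → d e v = 1 → ∀ i, d e i ≠ 0 → i = u ∨ i = v ∨ i = w) →
    ∀ R : ℕ, R + ∑ e, d e u ≤ n u → R + ∑ e, d e v ≤ n v →
    2 * R + n w + Fintype.card {e : Fin K // ∀ i, d e i ≠ 0 → i = u ∨ i = v ∨ i = w} ≤
      n u + n v + 1 →
    ∀ s : Fin K → ℂ, (∀ e, s e ≠ 0 → d e u = 1 ∧ d e v = 1) → s ≠ 0 →
    ∀ x : ∀ i, Fin (n i) → ℂ, x w ≠ 0 → R ≤ (∑ e, s e • mfR (F e) u v x).rank

end Pool.Agent.T6.H81.BO
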