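import Mathlib
import Pool.Agent.T6.H81.BO.Defs
import Pool.Agent.T6.H81.BN.Fin11

/-!
Smooth complete intersections of multilinear divisors: the asymptotic formula on every dense open
subset.
-/

set_option autoImplicit false

namespace Pool.Agent.T6.H81.BO

open Finset Module Matrix Filter Topology
open Pool.Agent.H548.WM (ht bx mem_bx Rep ht_pos)
open Pool.Agent.H548.BL (lat mem_lat rep_ne)
open Pool.Agent.H548.TL (evz evz_map evz_int deg_evz)
open Pool.Agent.T6.H5.TW (fl MultiDeg)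
open Pool.Agent.T6.H81.BG
open Pool.Agent.T6.H81.BH (StmtZ0 StmtPol StmtS6G)
open Pool.Agent.T6.H81.BN (BP StmtBB StmtNI StmtCH5 StmtBPQ StmtSS)
open Pool.Agent.T6.H81

namespace Fin12

variable {m K : ℕ} {n : Fin m → ℕ}

/-- The condition for the pair of blocks `u`, `v`: all common equations are of type `(1, 1)`, or the
pencil of the common equations has a large rank. -/
def Pair (F : Fin K → MvPolynomial (Σ i, Fin (n i)) ℤ) (d : Fin K → Fin m → ℕ) (u v : Fin m) :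
    Prop :=
  ((∀ e, d e u = 1 → d e v = 1 → ∑ i, d e i = 2) ∧
    ∑ e, d e u + ∑ e, d e v * ∑ i, d e i + 1 ≤ n u ∧
    ∑ e, d e u + ∑ e, d e v * ∑ i, d e i + 1 ≤ n v) ∨
  ∀ s : Fin K → ℂ, (∀ e, s e ≠ 0 → d e u = 1 ∧ d e v = 1) → s ≠ 0 →
    ∀ x : ∀ i, Fin (n i) → ℂ, (∀ i, x i ≠ 0) →
      ∑ e, d e u + ∑ e, d e v * ∑ i, d e i ≤ (∑ e, s e • mfR (F e) u v x).rank

/-- The numerical conditions. -/
theorem num (F : Fin K → MvPolynomial (Σ i, Fin (n i)) ℤ) (d : Fin K → Fin m → ℕ)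
    (hd1 : ∀ e v, d e v ≤ 1) (hd2 : ∀ e, 2 ≤ ∑ v, d e v) (hn0 : ∀ v, 2 ≤ n v)
    (hp : ∀ u v, u ≠ v → ∀ e, d e u = 1 → d e v = 1 → Pair F d u v) (v : Fin m) :
    ∑ e, d e v + 2 ≤ n v ∧ ∑ e, d e v * ∑ u, d e u + 1 ≤ n v := by
  have hsk : 2 * ∑ e, d e v ≤ ∑ e, d e v * ∑ u, d e u := by
    rw [Finset.mul_sum]
    refine Finset.sum_le_sum fun e _ => ?_
    have := Nat.mul_le_mul_left (d e v) (hd2 e)
    omega
  by_cases h0 : ∃ e, d e v = 1
  · obtain ⟨e, he⟩ := h0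
    obtain ⟨u, huv, hu⟩ := BN.Fin11.other d hd1 hd2 e v
    have hku : 1 ≤ ∑ e', d e' u := by
      have := Finset.single_le_sum (f := fun e' => d e' u) (fun _ _ => Nat.zero_le _) (mem_univ e)
      simp only [hu] at this
      exact this
    have hkv : 1 ≤ ∑ e', d e' v := by
      have := Finset.single_le_sum (f := fun e' => d e' v) (fun _ _ => Nat.zero_le _) (mem_univ e)
      simp only [he] at this
      exact this
    have key : ∑ e', d e' u + ∑ e', d e' v * ∑ i, d e' i ≤ n v := by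
      rcases hp u v huv e hu he with ⟨-, -, h⟩ | h
      · omega
      · have h4 := h (Pi.single e 1) (fun e' he' => by
          by_cases hee : e' = e
          · rw [hee]
            exact ⟨hu, he⟩
          · exact absurd (Pi.single_eq_of_ne hee _) he') (fun h0 => by
          have := congrFun h0 e
          simp at this) (fun i => Pi.single ⟨0, by
          have := hn0 i
          omega⟩ 1) (fun i h => by
          have := congrFun h ⟨0, by
            have := hn0 i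
            omega⟩
          simp at this)
        exact h4.trans (Matrix.rank_le_width _)
    omega
  · have h1 : ∀ e, d e v = 0 := by
      intro e
      by_contra h
      have := hd1 e v
      exact h0 ⟨e, by omega⟩
    have := hn0 v
    simp only [h1, Finset.sum_const_zero, zero_mul]
    omega

/-- All pairs of blocks. -/
theorem bp_all (hBPQ : StmtBPQ) (hBPS : StmtBPS) (hSS : StmtSS)
    (F : Fin K → MvPolynomial (Σ i, Fin (n i)) ℤ) (d : Fin K → Fin m → ℕ)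
    (hd1 : ∀ e v, d e v ≤ 1) (hF : ∀ e, MultiDeg (F e) (d e)) (hd2 : ∀ e, 2 ≤ ∑ v, d e v)
    (hn1 : ∀ v, ∑ e, d e v + 1 ≤ n v) (hle : ∀ v, ∑ e, d e v * ∑ u, d e u + 1 ≤ n v)
    (hp : ∀ u v, u ≠ v → ∀ e, d e u = 1 → d e v = 1 → Pair F d u v)
    (hsm : ∀ z : ∀ v, Fin (n v) → ℂ, (∀ v, z v ≠ 0) → Zr F z →
      LinearIndependent ℂ (fun (e : Fin K) (v : Fin m) => cf F e v z)) :
    ∀ u v, u ≠ v → BP F d u v := by
  intro u v huv
  by_cases h0 : ∀ e, d e u = 1 → d e v = 1 → False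
  · exact BN.Fin11.bp_zero F d hd1 hF huv h0
  push Not at h0
  obtain ⟨e0, h1, h2, -⟩ := h0
  rcases hp u v huv e0 h1 h2 with ⟨h3, h4, h5⟩ | h3
  · exact hBPQ m K n F d hd1 hF u v huv h3 h4 h5
      (hSS m K n F d hd1 hF hd2 hn1 hsm u v huv h3)
  · exact hBPS m K n F d hd1 hF hle u v huv h3

/-- **Smooth complete intersections of multilinear divisors.** -/
theorem main (hB : StmtB3) (hC : StmtC3) (hP : StmtP3) (hH : StmtH3) (hW : StmtW3) (hR3 : StmtR3)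
    (hZ : StmtZ3) (hS3 : StmtS3) (hS6 : StmtS6) (hS8 : StmtS8) (hZ0 : StmtZ0) (hPol : StmtPol)
    (hSG : StmtS6G) (hBB : StmtBB) (hNI : StmtNI) (hCH : StmtCH5) (hBPQ : StmtBPQ)
    (hBPS : StmtBPS) (hSS : StmtSS)
    {m K : ℕ} {n : Fin (m + 1) → ℕ}
    (F : Fin K → MvPolynomial (Σ i, Fin (n i)) ℤ) (d : Fin K → Fin (m + 1) → ℕ)
    (hd1 : ∀ e v, d e v ≤ 1) (hF : ∀ e, MultiDeg (F e) (d e)) (hd2 : ∀ e, 2 ≤ ∑ v, d e v)
    (hn0 : ∀ v, 2 ≤ n v)
    (hp : ∀ u v, u ≠ v → ∀ e, d e u = 1 → d e v = 1 → Pair F d u v)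
    (hsm : ∀ z : ∀ v, Fin (n v) → ℂ, (∀ v, z v ≠ 0) → Zr F z →
      LinearIndependent ℂ (fun (e : Fin K) (v : Fin (m + 1)) => cf F e v z))
    (ψ : (∀ v, Fin (n v) → ℝ) → ℝ) (S : Finset Nat.Primes)
    (φ : ∀ p : Nat.Primes, (∀ v, Fin (n v) → ℚ_[p]) → ℝ) (hψ : LFs {x | Zr F x} ψ)
    (hφ : ∀ p ∈ S, LFs {x | Zr F x} (φ p)) :
    (∃ z : ∀ i, Fin (n i) → ℂ, (∀ v, z v ≠ 0) ∧ Zr F z ∧
      ∀ v, LinearIndependent ℂ (fun e : {e : Fin K // d e v = 1} => cf F e.1 v z)) ∧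
    ∃ c : ℝ, 0 < c ∧ ∀ G : MvPolynomial (Σ i, Fin (n i)) ℤ,
      (∃ z : ∀ i, Fin (n i) → ℂ, (∀ v, z v ≠ 0) ∧ Zr F z ∧
        (∀ v, LinearIndependent ℂ (fun e : {e : Fin K // d e v = 1} => cf F e.1 v z)) ∧
        evz G (fl z) ≠ 0) →
      Tendsto (fun B : ℝ => ({x : Pt n | (∀ v, Rep (x v)) ∧ Zr F x ∧
        (∀ v, LinearIndependent ℤ (fun e : {e : Fin K // d e v = 1} => cf F e.1 v x)) ∧
        evz G (fl x) ≠ 0 ∧
        (∏ v, (ht (x v) : ℝ) ^ (n v - ∑ e, d e v)) * Phs ψ S φ x ≤ B}.ncard : ℝ) /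
          (B * Real.log B ^ m)) atTop (𝓝 c) := by
  have h1 := fun v => (num F d hd1 hd2 hn0 hp v).1
  have h2 := fun v => (num F d hd1 hd2 hn0 hp v).2
  exact BN.Fin10.main hB hC hP hH hW hR3 hZ hS3 hS6 hS8 hZ0 hPol hSG hBB hNI hCH F d hd1 hF hd2 h1
    h2 (bp_all hBPQ hBPS hSS F d hd1 hF hd2 (fun v => by have := h1 v; omega) h2 hp hsm)
    ψ S φ hψ hφ

end Fin12

end Pool.Agent.T6.H81.BO
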