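import Pool.Agent.T6.H81.BO.Defs
import Pool.Agent.T6.H81.BN.WL

/-!
Module PC: few `z` for which the vectors `M e * z` are dependent modulo given vectors, for a pencil
of large rank modulo a prime.
-/

set_option autoImplicit false

namespace Pool.Agent.T6.H81.BO

open Finset Module Matrix
open Pool.Agent.H548.WM (ht bx mem_bx Rep)
open Pool.Agent.T6.H81.BJ (cvv)

namespace ModPC

/-- a matrix of rank at least `R` has a nonzero minor of size `R` -/
theorem exists_minor {K : Type*} [Field K] {a b R : ℕ} (A : Matrix (Fin a) (Fin b) K)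
    (h : R ≤ A.rank) : ∃ (I : Fin R → Fin a) (J : Fin R → Fin b), Function.Injective J ∧
      (A.submatrix I J).det ≠ 0 := by
  obtain ⟨f, hf, -, hli⟩ := Submodule.exists_fun_fin_finrank_span_eq K (Set.range A.col)
  have hR1 : R ≤ Module.finrank K (Submodule.span K (Set.range A.col)) := by
    rw [← Matrix.rank_eq_finrank_span_cols]
    exact h
  choose J hJ using fun i : Fin R => hf (Fin.castLE hR1 i)
  have hliJ : LinearIndependent K (fun i : Fin R => A.col (J i)) := by
    have h1 : (fun i : Fin R => A.col (J i)) = f ∘ Fin.castLE hR1 := funext fun i => hJ i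
    rw [h1]
    exact hli.comp _ (Fin.castLE_injective hR1)
  have hinj : Function.Injective J := by
    intro x y hxy
    apply hliJ.injective
    simp only [hxy]
  set B : Matrix (Fin a) (Fin R) K := A.submatrix id J with hB
  have hBr : B.rank = R := by
    have h1 : LinearIndependent K Bᵀ.row := hliJ
    have h2 := h1.rank_matrix
    rwa [Fintype.card_fin, Matrix.rank_transpose] at h2
  obtain ⟨g, hg, -, hlig⟩ := Submodule.exists_fun_fin_finrank_span_eq K (Set.range B.row)
  have hR2 : R ≤ Module.finrank K (Submodule.span K (Set.range B.row)) := by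
    rw [← Matrix.rank_eq_finrank_span_row, hBr]
  choose I hI using fun i : Fin R => hg (Fin.castLE hR2 i)
  have hliI : LinearIndependent K (A.submatrix I J).row := by
    have h1 : (A.submatrix I J).row = g ∘ Fin.castLE hR2 := funext fun i => hI i
    rw [h1]
    exact hlig.comp _ (Fin.castLE_injective hR2)
  refine ⟨I, J, hinj, ?_⟩
  have h5 := Matrix.linearIndependent_rows_iff_isUnit.1 hliI
  rw [Matrix.isUnit_iff_isUnit_det] at h5
  exact h5.ne_zero

/-- the kernel of a matrix with an invertible minor -/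
theorem ker_card {A : Type*} [CommRing A] [Fintype A] [DecidableEq A] {a b R : ℕ} (B : Matrix (Fin a) (Fin b) A)
    (I : Fin R → Fin a) (J : Fin R → Fin b) (hJ : Function.Injective J)
    (hu : IsUnit (B.submatrix I J).det) :
    (Finset.univ.filter (fun y : Fin b → A => B *ᵥ y = 0)).card ≤ Fintype.card A ^ (b - R) := by
  classical
  have hc : Fintype.card {j : Fin b // j ∉ Set.range J} = b - R := by
    rw [Fintype.card_subtype_compl, Fintype.card_fin]
    congr 1
    have h1 : Fintype.card {x // x ∈ Set.range J} = Fintype.card (Set.range J) := rfl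
    rw [h1, Set.card_range_of_injective hJ, Fintype.card_fin]
  have h1 : Fintype.card A ^ (b - R) =
      (Finset.univ : Finset ({j : Fin b // j ∉ Set.range J} → A)).card := by
    rw [Finset.card_univ, Fintype.card_fun, hc]
  rw [h1]
  refine Finset.card_le_card_of_injOn (fun y j => y j.1) (fun _ _ => Finset.mem_univ _) ?_
  intro y hy y' hy' he
  rw [Finset.mem_coe, Finset.mem_filter] at hy hy'
  have h2 : B *ᵥ (y - y') = 0 := by rw [Matrix.mulVec_sub, hy.2, hy'.2, sub_zero]
  have h3 : ∀ j, j ∉ Set.range J → (y - y') j = 0 := by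
    intro j hj
    have := congrFun he ⟨j, hj⟩
    simp only at this
    rw [Pi.sub_apply, this, sub_self]
  have h4 : (B.submatrix I J) *ᵥ (fun r => (y - y') (J r)) = 0 := by
    funext i
    have h5 : ∑ j, B (I i) j * (y - y') j = 0 := congrFun h2 (I i)
    change ∑ r, B (I i) (J r) * (y - y') (J r) = 0
    refine Eq.trans ?_ h5
    rw [← Finset.sum_image (s := Finset.univ) (g := J) (f := fun j => B (I i) j * (y - y') j)
      (fun x _ z _ h => hJ h)]
    refine Finset.sum_subset (Finset.subset_univ _) ?_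
    intro j _ hj
    rw [h3 j, mul_zero]
    rintro ⟨r, rfl⟩
    exact hj (Finset.mem_image.2 ⟨r, Finset.mem_univ _, rfl⟩)
  have h6 : (fun r => (y - y') (J r)) = 0 := by
    have h7 : IsUnit (B.submatrix I J) := (Matrix.isUnit_iff_isUnit_det _).2 hu
    obtain ⟨⟨V, W, hVW, hWV⟩, hV⟩ := h7
    simp only at hV
    rw [← hV] at h4
    have h8 := congrArg (fun v => W *ᵥ v) h4
    simp only [Matrix.mulVec_mulVec, hWV, Matrix.one_mulVec, Matrix.mulVec_zero] at h8
    exact h8
  funext j
  by_cases hj : j ∈ Set.range J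
  · obtain ⟨r, rfl⟩ := hj
    have := congrFun h6 r
    simp only [Pi.sub_apply, Pi.zero_apply] at this
    exact sub_eq_zero.1 this
  · exact sub_eq_zero.1 (h3 j hj)

theorem sum_cvv {A : Type*} [CommRing A] {k N1 N2 : ℕ} (M : Fin k → Matrix (Fin N1) (Fin N2) ℤ)
    (s : Fin k → A) (y : Fin N2 → A) :
    ∑ e, s e • cvv M y e = (∑ e, s e • (M e).map (Int.cast : ℤ → A)) *ᵥ y := by
  rw [Matrix.sum_mulVec]
  refine Finset.sum_congr rfl fun e _ => ?_
  rw [Matrix.smul_mulVec]
  rfl

/-- the number of the relations with a unit coefficient, for a pencil of large rank -/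
theorem KK_le {k N1 N2 R p t : ℕ} [hp : Fact p.Prime] (ht : 1 ≤ t) [hn : NeZero (p ^ t)]
    (M : Fin k → Matrix (Fin N1) (Fin N2) ℤ)
    (hM : ∀ s : Fin k → ZMod p, s ≠ 0 →
      R ≤ (∑ e, s e • (M e).map (Int.cast : ℤ → ZMod p)).rank) :
    (BN.ModWL.KK M (p ^ t)).card ≤ (p ^ t) ^ k * (p ^ t) ^ (N2 - R) := by
  classical
  have h1 := Finset.card_eq_sum_card_fiberwise (s := BN.ModWL.KK M (p ^ t))
    (t := (Finset.univ : Finset (Fin k → ZMod (p ^ t)))) (f := Prod.fst)
    (fun _ _ => Finset.mem_coe.2 (Finset.mem_univ _))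
  rw [h1]
  have h2 : ∀ s ∈ (Finset.univ : Finset (Fin k → ZMod (p ^ t))),
      ((BN.ModWL.KK M (p ^ t)).filter (fun q => q.1 = s)).card ≤ (p ^ t) ^ (N2 - R) := by
    intro s _
    by_cases hs : ∃ i, IsUnit (s i)
    · obtain ⟨i, hi⟩ := hs
      let ψ : ZMod (p ^ t) →+* ZMod p := ZMod.castHom (dvd_pow_self p (by omega)) (ZMod p)
      have hne : (fun e => ψ (s e)) ≠ 0 := by
        intro h
        have h3 := congrFun h i
        exact (hi.map ψ).ne_zero h3
      set B : Matrix (Fin N1) (Fin N2) (ZMod (p ^ t)) :=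
        ∑ e, s e • (M e).map (Int.cast : ℤ → ZMod (p ^ t)) with hB
      have hBψ : B.map ψ = ∑ e, (fun e => ψ (s e)) e • (M e).map (Int.cast : ℤ → ZMod p) := by
        ext a b
        rw [hB, Matrix.map_apply, Matrix.sum_apply, Matrix.sum_apply, map_sum]
        refine Finset.sum_congr rfl fun e _ => ?_
        rw [Matrix.smul_apply, Matrix.smul_apply, smul_eq_mul, smul_eq_mul, map_mul,
          Matrix.map_apply, Matrix.map_apply, map_intCast]
      have h4 := hM _ hne
      rw [← hBψ] at h4
      obtain ⟨I, J, hJ, hdet⟩ := exists_minor _ h4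
      have hu : IsUnit (B.submatrix I J).det := by
        obtain ⟨m, hm⟩ := ZMod.intCast_surjective (B.submatrix I J).det
        rw [← hm, BJ.ModGX.unit_iff hp.out ht]
        intro hd
        apply hdet
        have h5 : ((B.map ψ).submatrix I J).det = ψ (B.submatrix I J).det := by
          rw [RingHom.map_det]
          rfl
        rw [h5, ← hm, map_intCast]
        exact (ZMod.intCast_zmod_eq_zero_iff_dvd _ _).2 hd
      have h6 := ker_card B I J hJ hu
      rw [ZMod.card] at h6
      refine le_trans (Finset.card_le_card_of_injOn (fun q => q.2) ?_ ?_) h6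
      · intro q hq
        rw [Finset.mem_coe, Finset.mem_filter, BN.ModWL.mem_KK] at hq
        obtain ⟨⟨-, h7⟩, h8⟩ := hq
        rw [Finset.mem_coe, Finset.mem_filter]
        refine ⟨Finset.mem_univ _, ?_⟩
        rw [hB, ← sum_cvv, ← h8]
        exact h7
      · intro q hq q' hq' he
        rw [Finset.mem_coe, Finset.mem_filter] at hq hq'
        exact Prod.ext (hq.2.trans hq'.2.symm) he
    · have h3 : (BN.ModWL.KK M (p ^ t)).filter (fun q => q.1 = s) = ∅ := by
        rw [Finset.filter_eq_empty_iff]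
        intro q hq h
        rw [BN.ModWL.mem_KK] at hq
        apply hs
        rw [← h]
        exact hq.1
      rw [h3, Finset.card_empty]
      exact Nat.zero_le _
  refine (Finset.sum_le_sum h2).trans (le_of_eq ?_)
  rw [Finset.sum_const, Finset.card_univ, Fintype.card_fun, ZMod.card, Fintype.card_fin,
    smul_eq_mul]

end ModPC

open ModPC BN.ModWL in
/-- Module PC. -/
theorem pC : StmtPC := by
  classical
  intro k N1 N2 k' R E p hp hE
  refine ⟨((2 * (2 * p) ^ E : ℕ) : ℝ), by positivity, fun M hM l ρ hρ => ?_⟩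
  have hmain : (Bad M l ρ).card ≤ 2 * (2 * p) ^ E * ρ ^ E := by
    rcases Nat.eq_zero_or_pos k with hk | hk
    · have h0 : Bad M l ρ = ∅ := by
        unfold Bad
        rw [Finset.filter_eq_empty_iff]
        rintro z - ⟨s, t', hs, -⟩
        apply hs
        funext i
        exact absurd i.isLt (by omega)
      rw [h0, Finset.card_empty]
      exact Nat.zero_le _
    have hR : R ≤ N2 := by
      have h1 := hM (fun _ => 1) (by
        intro h
        have := congrFun h ⟨0, hk⟩
        exact one_ne_zero this)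
      exact h1.trans ((Matrix.rank_le_card_width _).trans (le_of_eq (Fintype.card_fin _)))
    have hp2 := hp.out.two_le
    have hex : ∃ t, 2 * ρ < p ^ t :=
      ⟨2 * ρ, lt_of_lt_of_le (Nat.lt_two_pow_self) (Nat.pow_le_pow_left hp2 _)⟩
    let t := Nat.find hex
    have ht1 : 2 * ρ < p ^ t := Nat.find_spec hex
    have ht0 : t ≠ 0 := by
      intro h
      rw [h, pow_zero] at ht1
      omega
    have ht : 1 ≤ t := by omega
    have ht2 : p ^ (t - 1) ≤ 2 * ρ := by
      have := Nat.find_min hex (m := t - 1) (by omega)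
      omega
    have ht3 : p ^ t ≤ 2 * p * ρ := by
      have : p ^ t = p * p ^ (t - 1) := by
        rw [← pow_succ']
        congr 1
        omega
      rw [this]
      calc p * p ^ (t - 1) ≤ p * (2 * ρ) := Nat.mul_le_mul_left _ ht2
        _ = 2 * p * ρ := by ring
    have hne : NeZero (p ^ t) := ⟨pow_ne_zero _ hp.out.ne_zero⟩
    have hq : 0 < p ^ t := pow_pos hp.out.pos t
    have h1 := bad_le hp.out ht M l ρ ht1
    have h2 := card_TT M l (p ^ t)
    have h3 := card_Lb l (p ^ t)
    have h4 := KK_le ht M hM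
    have h5 := BJ.ModGX.totient_ge hp.out ht
    have h8 : (Bad M l ρ).card * p ^ t ≤ (2 * (p ^ t) ^ E) * p ^ t := by
      calc (Bad M l ρ).card * p ^ t ≤ (Bad M l ρ).card * (2 * Nat.totient (p ^ t)) :=
            Nat.mul_le_mul_left _ h5
        _ = 2 * ((Bad M l ρ).card * Nat.totient (p ^ t)) := by ring
        _ ≤ 2 * ((p ^ t) ^ k' * ((p ^ t) ^ k * (p ^ t) ^ (N2 - R))) :=
            Nat.mul_le_mul_left _ (h1.trans (h2.trans (Nat.mul_le_mul h3 h4)))
        _ = 2 * (p ^ t) ^ (k' + (k + (N2 - R))) := by rw [pow_add, pow_add]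
        _ ≤ 2 * (p ^ t) ^ (E + 1) :=
            Nat.mul_le_mul_left _ (Nat.pow_le_pow_right hq (by omega))
        _ = (2 * (p ^ t) ^ E) * p ^ t := by rw [pow_succ]; ring
    have h9 := Nat.le_of_mul_le_mul_right h8 hq
    calc (Bad M l ρ).card ≤ 2 * (p ^ t) ^ E := h9
      _ ≤ 2 * (2 * p * ρ) ^ E := Nat.mul_le_mul_left _ (Nat.pow_le_pow_left ht3 _)
      _ = 2 * (2 * p) ^ E * ρ ^ E := by rw [mul_pow]; ring
  have h10 : ((Bad M l ρ).card : ℝ) ≤ ((2 * (2 * p) ^ E * ρ ^ E : ℕ) : ℝ) := by
    exact_mod_cast hmain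
  rw [Nat.cast_mul, Nat.cast_pow ρ] at h10
  exact h10

end Pool.Agent.T6.H81.BO
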