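import Pool.Agent.T6.H81.BO.Defs
import Pool.Agent.T6.H81.BJ.GX
import Pool.Agent.H548.BK.Gen
import Pool.Agent.H548.TL.Ev

/-!
Module PG (helper60): a good prime for a pencil.
-/

set_option autoImplicit false

namespace Pool.Agent.T6.H81.BO

open Finset Module Matrix
open Pool.Agent.H548.TL (evz evz_map)
open Pool.Agent.T6.H5.TW (fl MultiDeg)
open Pool.Agent.T6.H81.BJ (StmtGP)

namespace ModPG

/-- the rank and the minors, over a field -/
theorem rank_of_minor {k : Type*} [Field k] {a b R : ℕ} (N : Matrix (Fin a) (Fin b) k)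
    (I : Fin R → Fin a) (J : Fin R → Fin b) (h : (N.submatrix I J).det ≠ 0) : R ≤ N.rank := by
  classical
  have h1 : N.submatrix I J = ((1 : Matrix (Fin a) (Fin a) k).submatrix I id * N) *
      (1 : Matrix (Fin b) (Fin b) k).submatrix id J := by
    ext i j
    simp [Matrix.mul_apply, Matrix.one_apply]
  have h2 : (N.submatrix I J).rank = R := by
    have h3 := Matrix.rank_of_isUnit (N.submatrix I J)
      ((Matrix.isUnit_iff_isUnit_det _).2 (isUnit_iff_ne_zero.2 h))
    rwa [Fintype.card_fin] at h3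
  rw [← h2, h1]
  exact (Matrix.rank_mul_le_left _ _).trans (Matrix.rank_mul_le_right _ _)

theorem minor_of_rank {k : Type*} [Field k] {a b R : ℕ} (N : Matrix (Fin a) (Fin b) k)
    (h : R ≤ N.rank) : ∃ (I : Fin R → Fin a) (J : Fin R → Fin b), (N.submatrix I J).det ≠ 0 := by
  classical
  rw [Matrix.rank_eq_finrank_span_row] at h
  obtain ⟨f, hf, -, hli⟩ := Submodule.exists_fun_fin_finrank_span_eq k (Set.range N.row)
  have hf' : ∀ s : Fin R, ∃ i, N.row i = f (Fin.castLE h s) := fun s => hf _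
  choose I hI using hf'
  have h1 : LinearIndependent k (N.submatrix I id).row := by
    have h5 := hli.comp (Fin.castLE h) (Fin.castLE_injective _)
    have h6 : (N.submatrix I id).row = f ∘ (Fin.castLE h) := by
      funext s
      exact hI s
    rw [h6]
    exact h5
  obtain ⟨J, hJ⟩ := Pool.Agent.H548.BK.exists_minor' h1
  exact ⟨I, J, hJ⟩

theorem map_mfR {A B : Type*} [CommRing A] [CommRing B] (φ : A →+* B) {m : ℕ} {n : Fin m → ℕ}
    (p : MvPolynomial (Σ i, Fin (n i)) ℤ) (u v : Fin m) (x : ∀ i, Fin (n i) → A) :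
    (mfR p u v x).map φ = mfR p u v (fun i t => φ (x i t)) := by
  ext s t
  unfold mfR
  rw [Matrix.map_apply, Matrix.of_apply, Matrix.of_apply, evz_map]
  congr 1
  funext q
  obtain ⟨i, r⟩ := q
  show φ (Function.update (Function.update x u (Pi.single s 1)) v (Pi.single t 1) i r) =
    Function.update (Function.update (fun i t => φ (x i t)) u (Pi.single s 1)) v
      (Pi.single t 1) i r
  have hsingle : ∀ {N : ℕ} (j j' : Fin N), φ ((Pi.single j 1 : Fin N → A) j') =
      (Pi.single j 1 : Fin N → B) j' := by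
    intro N j j'
    by_cases h : j' = j
    · subst h
      rw [Pi.single_eq_same, Pi.single_eq_same, map_one]
    · rw [Pi.single_eq_of_ne h, Pi.single_eq_of_ne h, map_zero]
  by_cases hi : i = v
  · subst hi
    rw [Function.update_self, Function.update_self]
    exact hsingle _ _
  · rw [Function.update_of_ne hi, Function.update_of_ne hi]
    by_cases hi' : i = u
    · subst hi'
      rw [Function.update_self, Function.update_self]
      exact hsingle _ _
    · rw [Function.update_of_ne hi', Function.update_of_ne hi']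

theorem map_sum_mfR {A B : Type*} [CommRing A] [CommRing B] (φ : A →+* B) {m K : ℕ}
    {n : Fin m → ℕ} (F : Fin K → MvPolynomial (Σ i, Fin (n i)) ℤ) (u v : Fin m) (s : Fin K → A)
    (x : ∀ i, Fin (n i) → A) :
    (∑ e, s e • mfR (F e) u v x).map φ =
      ∑ e, φ (s e) • mfR (F e) u v (fun i t => φ (x i t)) := by
  ext i j
  rw [Matrix.map_apply, Matrix.sum_apply, Matrix.sum_apply, map_sum]
  refine Finset.sum_congr rfl fun e _ => ?_
  rw [Matrix.smul_apply, Matrix.smul_apply, smul_eq_mul, smul_eq_mul, map_mul, ← map_mfR,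
    Matrix.map_apply]

end ModPG

open ModPG in
/-- Module PG. -/
theorem pG (hGP : StmtGP) : StmtPG := by
  classical
  intro m K R n F u v A huv hyp
  let σ := Fin K ⊕ (Σ i, Fin (n i))
  let S : Fin K → MvPolynomial σ ℤ := fun e => MvPolynomial.X (Sum.inl e)
  let Xx : ∀ i, Fin (n i) → MvPolynomial σ ℤ := fun i t => MvPolynomial.X (Sum.inr ⟨i, t⟩)
  let PM : Matrix (Fin (n u)) (Fin (n v)) (MvPolynomial σ ℤ) := ∑ e, S e • mfR (F e) u v Xx
  let f : ({e : Fin K // e ∉ A} ⊕ ((Fin R → Fin (n u)) × (Fin R → Fin (n v)))) →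
      MvPolynomial σ ℤ := fun t => match t with
    | Sum.inl e => S e.1
    | Sum.inr IJ => (PM.submatrix IJ.1 IJ.2).det
  let g : Fin K × (∀ i, Fin (n i)) → MvPolynomial σ ℤ := fun t => S t.1 * ∏ i, Xx i (t.2 i)
  have hX : ∀ (R : Type) [CommRing R] (z : σ → R) (w : σ), evz (MvPolynomial.X w) z = z w := by
    intro R _ z w
    unfold evz
    exact MvPolynomial.eval₂_X _ _ _
  have hdet : ∀ (Q : Type) [CommRing Q] (z : σ → Q) (I : Fin R → Fin (n u))
      (J : Fin R → Fin (n v)), evz ((PM.submatrix I J).det) z =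
      ((∑ e, z (Sum.inl e) • mfR (F e) u v (fun i t => z (Sum.inr ⟨i, t⟩))).submatrix I J).det := by
    intro Q _ z I J
    have h1 : evz ((PM.submatrix I J).det) z =
        MvPolynomial.eval₂Hom (Int.castRingHom Q) z ((PM.submatrix I J).det) := rfl
    rw [h1, RingHom.map_det]
    congr 1
    have h2 : (MvPolynomial.eval₂Hom (Int.castRingHom Q) z).mapMatrix (PM.submatrix I J) =
        (PM.map (MvPolynomial.eval₂Hom (Int.castRingHom Q) z)).submatrix I J := rfl
    rw [h2, map_sum_mfR]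
    have h3 : ∀ w : σ, (MvPolynomial.eval₂Hom (Int.castRingHom Q) z) (MvPolynomial.X w) = z w :=
      fun w => hX Q z w
    simp only [S, Xx, h3]
  have hf : ∀ (Q : Type) [CommRing Q] (z : σ → Q), (∀ t, evz (f t) z = 0) ↔
      ((∀ e, e ∉ A → z (Sum.inl e) = 0) ∧
        ∀ (I : Fin R → Fin (n u)) (J : Fin R → Fin (n v)),
        ((∑ e, z (Sum.inl e) • mfR (F e) u v
          (fun i t => z (Sum.inr ⟨i, t⟩))).submatrix I J).det = 0) := by
    intro Q _ z
    constructor
    · intro h
      refine ⟨fun e he => ?_, fun I J => ?_⟩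
      · have h1 := h (Sum.inl ⟨e, he⟩)
        simp only [f, S] at h1
        rwa [hX] at h1
      · have h1 := h (Sum.inr (I, J))
        simp only [f] at h1
        rwa [hdet] at h1
    · rintro ⟨h1, h2⟩ t
      rcases t with e | IJ
      · simp only [f, S]
        rw [hX]
        exact h1 e.1 e.2
      · simp only [f]
        rw [hdet]
        exact h2 _ _
  have hg : ∀ (Q : Type) [CommRing Q] (z : σ → Q) (t : Fin K × (∀ i, Fin (n i))),
      evz (g t) z = z (Sum.inl t.1) * ∏ i, z (Sum.inr ⟨i, t.2 i⟩) := by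
    intro Q _ z t
    have h1 : evz (g t) z = MvPolynomial.eval₂Hom (Int.castRingHom Q) z (g t) := rfl
    have h3 : ∀ w : σ, (MvPolynomial.eval₂Hom (Int.castRingHom Q) z) (MvPolynomial.X w) = z w :=
      fun w => hX Q z w
    rw [h1]
    simp only [g, S, Xx, map_mul, map_prod, h3]
  have hD : ∀ t : Fin K × (∀ i, Fin (n i)), ∃ D : ℕ, 1 ≤ D ∧ ∀ p : ℕ, p.Prime → ¬ p ∣ D →
      ∀ z : σ → ZMod p, (∀ i, evz (f i) z = 0) → evz (g t) z = 0 := by
    intro t
    refine hGP σ _ f (g t) ?_
    intro z hz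
    rw [hf] at hz
    rw [hg]
    by_contra hne
    have hs0 : z (Sum.inl t.1) ≠ 0 := left_ne_zero_of_mul hne
    have hx0 : ∀ i, z (Sum.inr ⟨i, t.2 i⟩) ≠ 0 := fun i =>
      Finset.prod_ne_zero_iff.1 (right_ne_zero_of_mul hne) i (Finset.mem_univ i)
    have h1 := hyp (fun e => z (Sum.inl e)) hz.1 (fun h => hs0 (congrFun h t.1))
      (fun i t => z (Sum.inr ⟨i, t⟩)) (fun i h => hx0 i (congrFun h (t.2 i)))
    obtain ⟨I, J, hIJ⟩ := minor_of_rank _ h1
    exact hIJ (hz.2 I J)
  choose D hD1 hD2 using hD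
  obtain ⟨p, hp1, hp⟩ := Nat.exists_infinite_primes (∏ t, D t + 1)
  have hfact : Fact p.Prime := ⟨hp⟩
  refine ⟨p, hfact, ?_⟩
  intro s hsA hs x hx
  obtain ⟨e, he⟩ := Function.ne_iff.mp hs
  have hx' : ∀ i, ∃ t, x i t ≠ 0 := fun i => Function.ne_iff.mp (hx i)
  choose c hc using hx'
  have hnd : ¬ p ∣ D (e, c) := by
    intro h
    have h4 : D (e, c) ∣ ∏ t, D t := Finset.dvd_prod_of_mem _ (Finset.mem_univ _)
    have h5 : 0 < ∏ t, D t := Finset.prod_pos fun t _ => hD1 t
    have h6 := Nat.le_of_dvd h5 (h.trans h4)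
    omega
  let z : σ → ZMod p := fun t => match t with
    | Sum.inl e => s e
    | Sum.inr q => x q.1 q.2
  by_contra hR
  have h4 := hD2 (e, c) p hp hnd z ((hf (ZMod p) z).mpr ⟨hsA, fun I J => by
    by_contra hIJ
    exact hR (rank_of_minor _ I J hIJ)⟩)
  rw [hg] at h4
  rcases mul_eq_zero.mp h4 with h5 | h5
  · exact he h5
  · obtain ⟨i, -, hi⟩ := Finset.prod_eq_zero_iff.1 h5
    exact hc i hi

end Pool.Agent.T6.H81.BO
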