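import Mathlib
import Pool.Agent.T6.H81.BO.Defs

/-!
Common zeros of `j ≤ a + b` bilinear forms on `ℂ^(a + 1) × ℂ^(b + 1)`, by Krull's height theorem in
the ring of the Segre cone.
-/

set_option autoImplicit false

namespace Pool.Agent.T6.H81.BO

open Finset Module Matrix MvPolynomial

namespace SG

/-- The Segre map. -/
noncomputable def sg (a b : ℕ) : MvPolynomial (Fin (a + 1) × Fin (b + 1)) ℂ →ₐ[ℂ]
    MvPolynomial (Fin (a + 1) ⊕ Fin (b + 1)) ℂ :=
  aeval fun q => X (Sum.inl q.1) * X (Sum.inr q.2)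

/-- The ring of the Segre cone. -/
noncomputable abbrev SR (a b : ℕ) : Subalgebra ℂ (MvPolynomial (Fin (a + 1) ⊕ Fin (b + 1)) ℂ) := (sg a b).range

/-- The substitution of zero for the variables of a set. -/
noncomputable def kil {σ : Type*} (T : Set σ) : MvPolynomial σ ℂ →ₐ[ℂ] MvPolynomial σ ℂ :=
  aeval fun s => @ite _ (s ∈ T) (Classical.propDecidable _) 0 (X s)

theorem kil_pos {σ : Type*} {T : Set σ} {s : σ} (h : s ∈ T) :
    kil T (X s : MvPolynomial σ ℂ) = 0 := by
  rw [kil, aeval_X, if_pos h]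

theorem kil_neg {σ : Type*} {T : Set σ} {s : σ} (h : s ∉ T) :
    kil T (X s : MvPolynomial σ ℂ) = X s := by
  rw [kil, aeval_X, if_neg h]

/-- The prime ideals of the Segre cone. -/
noncomputable def pr (a b : ℕ) (T : Set (Fin (a + 1) ⊕ Fin (b + 1))) : Ideal (SR a b) :=
  RingHom.ker ((kil T).toRingHom.comp (SR a b).val.toRingHom)

instance (a b : ℕ) (T : Set (Fin (a + 1) ⊕ Fin (b + 1))) : (pr a b T).IsPrime :=
  RingHom.ker_isPrime _

theorem mem_pr {a b : ℕ} {T : Set (Fin (a + 1) ⊕ Fin (b + 1))} (x : SR a b) :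
    x ∈ pr a b T ↔ kil T (x : MvPolynomial (Fin (a + 1) ⊕ Fin (b + 1)) ℂ) = 0 := Iff.rfl

/-- The generators. -/
noncomputable def ge {a b : ℕ} (i : Fin (a + 1)) (l : Fin (b + 1)) : SR a b :=
  ⟨X (Sum.inl i) * X (Sum.inr l), ⟨X (i, l), by simp [sg]⟩⟩

theorem kil_mono {σ : Type*} {T T' : Set σ} (h : T ⊆ T') (p : MvPolynomial σ ℂ) :
    kil T' (kil T p) = kil T' p := by
  have h1 : (kil T').comp (kil T) = kil T' := by
    apply MvPolynomial.algHom_ext
    intro s
    rw [AlgHom.comp_apply]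
    by_cases hs : s ∈ T
    · rw [kil_pos hs, kil_pos (h hs), map_zero]
    · rw [kil_neg hs]
  exact DFunLike.congr_fun h1 p

theorem pr_mono {a b : ℕ} {T T' : Set (Fin (a + 1) ⊕ Fin (b + 1))} (h : T ⊆ T') :
    pr a b T ≤ pr a b T' := by
  intro p hp
  rw [mem_pr] at hp ⊢
  rw [← kil_mono h, hp, map_zero]

theorem ge_mem {a b : ℕ} {T : Set (Fin (a + 1) ⊕ Fin (b + 1))} (i : Fin (a + 1))
    (l : Fin (b + 1)) : ge i l ∈ pr a b T ↔ Sum.inl i ∈ T ∨ Sum.inr l ∈ T := by
  have h0 : ge i l ∈ pr a b T ↔ kil T (X (Sum.inl i)) * kil T (X (Sum.inr l)) = 0 := by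
    rw [mem_pr, ← map_mul]; rfl
  rw [h0, mul_eq_zero]
  constructor
  · rintro (h | h)
    · left; by_contra hc; rw [kil_neg hc] at h; exact X_ne_zero _ h
    · right; by_contra hc; rw [kil_neg hc] at h; exact X_ne_zero _ h
  · rintro (h | h)
    · left; exact kil_pos h
    · right; exact kil_pos h

theorem pr_lt {a b : ℕ} {T T' : Set (Fin (a + 1) ⊕ Fin (b + 1))} (h : T ⊆ T')
    (i : Fin (a + 1)) (l : Fin (b + 1)) (hi : Sum.inl i ∉ T) (hl : Sum.inr l ∉ T)
    (h' : Sum.inl i ∈ T' ∨ Sum.inr l ∈ T') : pr a b T < pr a b T' := by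
  refine lt_of_le_of_ne (pr_mono h) fun he => ?_
  have h1 : ge i l ∈ pr a b T' := (ge_mem i l).2 h'
  rw [← he, ge_mem] at h1
  rcases h1 with h1 | h1
  · exact hi h1
  · exact hl h1

theorem ht1 (a b : ℕ) (k : ℕ) (hk : k ≤ a) :
    (k : ℕ∞) ≤ (pr a b {s | ∃ i : Fin (a + 1), i.val < k ∧ s = Sum.inl i}).height := by
  induction k with
  | zero => simp
  | succ k ih =>
    have h1 := ih (by omega)
    have h2 : pr a b {s | ∃ i : Fin (a + 1), i.val < k ∧ s = Sum.inl i} <
        pr a b {s | ∃ i : Fin (a + 1), i.val < k + 1 ∧ s = Sum.inl i} := by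
      refine pr_lt ?_ ⟨k, by omega⟩ 0 ?_ ?_ ?_
      · rintro s ⟨i, hi, rfl⟩; exact ⟨i, by omega, rfl⟩
      · rintro ⟨i, hi, h⟩
        have := Sum.inl_injective h
        subst this; simp at hi
      · rintro ⟨i, hi, h⟩; cases h
      · left; exact ⟨⟨k, by omega⟩, by simp, rfl⟩
    have h3 := Ideal.height_add_one_le_of_lt_of_isPrime h2
    push_cast
    exact le_trans (by gcongr) h3

theorem ht2 (a b : ℕ) (k : ℕ) (hk : k ≤ b) :
    ((a + k : ℕ) : ℕ∞) ≤ (pr a b ({s | ∃ i : Fin (a + 1), i.val < a ∧ s = Sum.inl i} ∪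
      {s | ∃ i : Fin (b + 1), i.val < k ∧ s = Sum.inr i})).height := by
  induction k with
  | zero => simpa using ht1 a b a le_rfl
  | succ k ih =>
    have h1 := ih (by omega)
    have h2 : pr a b ({s | ∃ i : Fin (a + 1), i.val < a ∧ s = Sum.inl i} ∪
      {s | ∃ i : Fin (b + 1), i.val < k ∧ s = Sum.inr i}) <
        pr a b ({s | ∃ i : Fin (a + 1), i.val < a ∧ s = Sum.inl i} ∪
      {s | ∃ i : Fin (b + 1), i.val < k + 1 ∧ s = Sum.inr i}) := by
      refine pr_lt ?_ ⟨a, by omega⟩ ⟨k, by omega⟩ ?_ ?_ ?_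
      · apply Set.union_subset_union_right
        rintro s ⟨i, hi, rfl⟩; exact ⟨i, by omega, rfl⟩
      · rintro (⟨i, hi, h⟩ | ⟨i, hi, h⟩)
        · have := Sum.inl_injective h
          subst this; simp at hi
        · cases h
      · rintro (⟨i, hi, h⟩ | ⟨i, hi, h⟩)
        · cases h
        · have := Sum.inr_injective h
          subst this; simp at hi
      · right; right; exact ⟨⟨k, by omega⟩, by simp, rfl⟩
    have h3 := Ideal.height_add_one_le_of_lt_of_isPrime h2
    rw [← Nat.add_assoc]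
    push_cast at h1 ⊢
    exact le_trans (by gcongr) h3

theorem ht3 (a b : ℕ) : ((a + b + 1 : ℕ) : ℕ∞) ≤ (pr a b Set.univ).height := by
  have h1 := ht2 a b b le_rfl
  have h2 : pr a b ({s | ∃ i : Fin (a + 1), i.val < a ∧ s = Sum.inl i} ∪
      {s | ∃ i : Fin (b + 1), i.val < b ∧ s = Sum.inr i}) < pr a b Set.univ := by
    refine pr_lt (Set.subset_univ _) ⟨a, by omega⟩ ⟨b, by omega⟩ ?_ ?_ (Or.inl (Set.mem_univ _))
    · rintro (⟨i, hi, h⟩ | ⟨i, hi, h⟩)
      · have := Sum.inl_injective h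
        subst this; simp at hi
      · cases h
    · rintro (⟨i, hi, h⟩ | ⟨i, hi, h⟩)
      · cases h
      · have := Sum.inr_injective h
        subst this; simp at hi
  have h3 := Ideal.height_add_one_le_of_lt_of_isPrime h2
  push_cast at h1 ⊢
  exact le_trans (by gcongr) h3

instance (a b : ℕ) : Algebra.FiniteType ℂ (SR a b) :=
  Algebra.FiniteType.of_surjective (sg a b).rangeRestrict (AlgHom.rangeRestrict_surjective _)

instance (a b : ℕ) : IsNoetherianRing (SR a b) :=
  Algebra.FiniteType.isNoetherianRing ℂ _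

/-- Two homomorphisms that agree on the generators. -/
theorem hext {a b : ℕ} {A : Type*} [CommRing A] [Algebra ℂ A] (f g : SR a b →ₐ[ℂ] A)
    (h : ∀ i l, f (ge i l) = g (ge i l)) : f = g := by
  have h1 : f.comp (sg a b).rangeRestrict = g.comp (sg a b).rangeRestrict := by
    apply MvPolynomial.algHom_ext
    rintro ⟨i, l⟩
    have : (sg a b).rangeRestrict (X (i, l)) = ge i l := by
      apply Subtype.ext
      change (sg a b) (X (i, l)) = X (Sum.inl i) * X (Sum.inr l)
      simp [sg]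
    simp only [AlgHom.comp_apply, this, h]
  ext x
  obtain ⟨p, hp⟩ := AlgHom.rangeRestrict_surjective (sg a b) x
  rw [← hp]
  exact DFunLike.congr_fun h1 p

end SG

open SG in
/-- Module SEG. -/
theorem sEG : StmtSEG := by
  classical
  intro a b j B hj
  -- the forms
  let f : Fin j → SR a b := fun i => ∑ s, ∑ t, B i s t • ge s t
  let I : Ideal (SR a b) := Ideal.span (Set.range f)
  have hIm : I ≤ pr a b Set.univ := by
    apply Ideal.span_le.2
    rintro x ⟨i, rfl⟩
    refine Ideal.sum_mem _ fun s _ => Ideal.sum_mem _ fun t _ => ?_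
    rw [Algebra.smul_def]
    exact Ideal.mul_mem_left _ _ ((ge_mem s t).2 (Or.inl (Set.mem_univ _)))
  obtain ⟨P, hP, hPm⟩ := Ideal.exists_minimalPrimes_le hIm
  have hPp : P.IsPrime := hP.1.1
  have hPh : P.height ≤ (j : ℕ∞) := by
    have hP' : P ∈ (Ideal.span ((Finset.univ.image f : Finset (SR a b)) : Set (SR a b))).minimalPrimes := by
      simpa [I] using hP
    have := Ideal.height_le_card_of_mem_minimalPrimes_span_finset hP'
    refine this.trans ?_
    have h2 : (Finset.univ.image f).card ≤ j := by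
      simpa using (Finset.card_image_le (s := (Finset.univ : Finset (Fin j))) (f := f))
    exact_mod_cast h2
  have hPne : P ≠ pr a b Set.univ := by
    intro he
    have h1 := ht3 a b
    rw [← he] at h1
    have h2 := h1.trans hPh
    have h3 : a + b + 1 ≤ j := by exact_mod_cast h2
    omega
  -- a maximal ideal above `P`
  obtain ⟨N, hPN, hNm, hNne⟩ : ∃ N : Ideal (SR a b), P ≤ N ∧ N.IsMaximal ∧ N ≠ pr a b Set.univ := by
    by_contra hc
    push Not at hc
    have hJR : IsJacobsonRing (SR a b) := isJacobsonRing_of_finiteType (A := ℂ)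
    have hJ : P.jacobson = P := isJacobsonRing_iff.1 hJR P hPp.isRadical
    have h1 : pr a b Set.univ ≤ P := by
      rw [← hJ]
      apply le_sInf
      rintro N ⟨hN1, hN2⟩
      rw [hc N hN1 hN2]
    exact hPne (le_antisymm hPm h1)
  -- the point
  obtain ⟨h, hh⟩ : ∃ h : SR a b →ₐ[ℂ] ℂ, ∀ x, h x = 0 ↔ x ∈ N := by
    let _ : Field (SR a b ⧸ N) := Ideal.Quotient.field N
    have hfin : Module.Finite ℂ (SR a b ⧸ N) := finite_of_finite_type_of_isJacobsonRing ℂ _
    have hint : Algebra.IsIntegral ℂ (SR a b ⧸ N) := Algebra.IsIntegral.of_finite ℂ _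
    have hbij : Function.Bijective (algebraMap ℂ (SR a b ⧸ N)) :=
      IsAlgClosed.algebraMap_bijective_of_isIntegral
    let e : ℂ ≃ₐ[ℂ] (SR a b ⧸ N) := AlgEquiv.ofBijective (Algebra.ofId ℂ _) hbij
    refine ⟨e.symm.toAlgHom.comp (Ideal.Quotient.mkₐ ℂ N), fun x => ?_⟩
    rw [← Ideal.Quotient.eq_zero_iff_mem]
    exact map_eq_zero_iff e.symm e.symm.injective
  have hne : ∃ i l, h (ge i l) ≠ 0 := by
    by_contra hc
    push Not at hc
    apply hNne
    have hNle : pr a b Set.univ ≤ N := by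
      intro x hx
      rw [← hh]
      have h0 := hext ((Algebra.ofId ℂ (MvPolynomial (Fin (a + 1) ⊕ Fin (b + 1)) ℂ)).comp h)
          ((kil Set.univ).comp (SR a b).val) (fun i l => by
            have h1 : ge i l ∈ pr a b Set.univ := (ge_mem i l).2 (Or.inl (Set.mem_univ _))
            rw [mem_pr] at h1
            rw [AlgHom.comp_apply, hc i l, map_zero]
            exact h1.symm)
      rw [mem_pr] at hx
      have h1 := DFunLike.congr_fun h0 x
      have h2 : (MvPolynomial.C (h x) : MvPolynomial (Fin (a + 1) ⊕ Fin (b + 1)) ℂ) = 0 := by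
        rw [← hx]; exact h1
      exact C_eq_zero.1 h2
    -- the other inclusion
    refine le_antisymm (fun x hx => ?_) hNle
    by_contra hx2
    rw [← hh] at hx
    have h0 := hext ((Algebra.ofId ℂ (MvPolynomial (Fin (a + 1) ⊕ Fin (b + 1)) ℂ)).comp h)
          ((kil Set.univ).comp (SR a b).val) (fun i l => by
            have h1 : ge i l ∈ pr a b Set.univ := (ge_mem i l).2 (Or.inl (Set.mem_univ _))
            rw [mem_pr] at h1
            rw [AlgHom.comp_apply, hc i l, map_zero]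
            exact h1.symm)
    have h1 := DFunLike.congr_fun h0 x
    apply hx2
    rw [mem_pr]
    refine Eq.trans h1.symm ?_
    rw [AlgHom.comp_apply, hx, map_zero]
  obtain ⟨i0, l0, h0⟩ := hne
  have hge : ∀ i l i' l', h (ge i l) * h (ge i' l') = h (ge i l') * h (ge i' l) := by
    intro i l i' l'
    have hg : ge i l * ge i' l' = ge i l' * ge i' l := by
      apply Subtype.ext
      change (X (Sum.inl i) * X (Sum.inr l)) * (X (Sum.inl i') * X (Sum.inr l')) =
        (X (Sum.inl i) * X (Sum.inr l')) * (X (Sum.inl i') * X (Sum.inr l))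
      ring
    rw [← map_mul, ← map_mul, hg]
  refine ⟨fun i => h (ge i l0), fun l => h (ge i0 l), fun he => h0 (congrFun he i0),
    fun he => h0 (congrFun he l0), fun i => ?_⟩
  have hf : h (f i) = 0 := (hh _).2 (hPN (hP.1.2 (Ideal.subset_span ⟨i, rfl⟩)))
  have hf2 : ∑ s, ∑ t, B i s t * h (ge s t) = 0 := by
    rw [← hf]; simp [f, map_sum]
  calc (fun i => h (ge i l0)) ⬝ᵥ (B i *ᵥ fun l => h (ge i0 l))
      = ∑ s, ∑ t, h (ge s l0) * (B i s t * h (ge i0 t)) := by
        simp [dotProduct, mulVec, Finset.mul_sum]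
    _ = ∑ s, ∑ t, (B i s t * h (ge s t)) * h (ge i0 l0) := by
        refine Finset.sum_congr rfl fun s _ => Finset.sum_congr rfl fun t _ => ?_
        have := hge s l0 i0 t
        linear_combination (B i s t) * this
    _ = 0 := by
        simp only [← Finset.sum_mul]
        rw [hf2, zero_mul]

end Pool.Agent.T6.H81.BO
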