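import Mathlib
import Pool.Agent.T6.H81.BO.Defs2
import Pool.Agent.T6.H81.BG.S5

/-! Module SR2: the ranks of smooth complete intersections of multilinear divisors (helper29). -/

set_option autoImplicit false

namespace Pool.Agent.T6.H81.BO

open Finset Module Matrix
open Pool.Agent.H548.TL (evz)
open Pool.Agent.T6.H5.TW (fl MultiDeg)
open Pool.Agent.T6.H81.BG (Pt Zr cf)
open Pool.Agent.T6.H81.BG.S5 (indep evz_lin)

namespace SR2

/-- the common kernel of a matrix and of some linear forms -/
theorem ker_dim {p q : ℕ} (M : Matrix (Fin p) (Fin q) ℂ) {ι : Type} [Fintype ι]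
    (c : ι → Fin q → ℂ) : ∃ S : Submodule ℂ (Fin q → ℂ),
    (∀ z ∈ S, M *ᵥ z = 0 ∧ ∀ i, c i ⬝ᵥ z = 0) ∧ q ≤ finrank ℂ S + M.rank + Fintype.card ι := by
  let L1 : (Fin q → ℂ) →ₗ[ℂ] LinearMap.range M.mulVecLin := M.mulVecLin.rangeRestrict
  let L2 : (Fin q → ℂ) →ₗ[ℂ] (ι → ℂ) := (Matrix.of c).mulVecLin
  let L := L1.prod L2
  refine ⟨LinearMap.ker L, fun z hz => ?_, ?_⟩
  · have h : L z = 0 := hz
    have h1 : L1 z = 0 := congrArg Prod.fst h
    have h2 : L2 z = 0 := congrArg Prod.snd h
    refine ⟨congrArg Subtype.val h1, fun i => congrFun h2 i⟩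
  · have h := LinearMap.finrank_range_add_finrank_ker L
    have h1 : finrank ℂ (LinearMap.range L) ≤ finrank ℂ (LinearMap.range M.mulVecLin × (ι → ℂ)) :=
      Submodule.finrank_le _
    rw [Module.finrank_prod, Module.finrank_fintype_fun_eq_card] at h1
    rw [Module.finrank_fin_fun] at h
    have h2 : M.rank = finrank ℂ (LinearMap.range M.mulVecLin) := rfl
    omega

/-- common zeros of bilinear forms on subspaces -/
theorem seg (hSEG : StmtSEG) {p q : ℕ} (S : Submodule ℂ (Fin p → ℂ)) (T : Submodule ℂ (Fin q → ℂ))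
    {ι : Type} [Fintype ι] (N : ι → Matrix (Fin p) (Fin q) ℂ) (hS : 1 ≤ finrank ℂ S)
    (hT : 1 ≤ finrank ℂ T) (hc : Fintype.card ι + 2 ≤ finrank ℂ S + finrank ℂ T) :
    ∃ y ∈ S, ∃ z ∈ T, y ≠ 0 ∧ z ≠ 0 ∧ ∀ i, y ⬝ᵥ (N i *ᵥ z) = 0 := by
  obtain ⟨a, ha⟩ : ∃ a, finrank ℂ S = a + 1 := ⟨finrank ℂ S - 1, by omega⟩
  obtain ⟨b, hb⟩ : ∃ b, finrank ℂ T = b + 1 := ⟨finrank ℂ T - 1, by omega⟩
  let bS := finBasisOfFinrankEq ℂ S ha
  let bT := finBasisOfFinrankEq ℂ T hb
  let P : Matrix (Fin p) (Fin (a + 1)) ℂ := Matrix.of fun i j => (bS j : Fin p → ℂ) i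
  let Q : Matrix (Fin q) (Fin (b + 1)) ℂ := Matrix.of fun i j => (bT j : Fin q → ℂ) i
  have hP : ∀ y : Fin (a + 1) → ℂ, P *ᵥ y = ((∑ j, y j • bS j : S) : Fin p → ℂ) := by
    intro y
    ext i
    simp [P, Matrix.mulVec, dotProduct, mul_comm]
  have hQ : ∀ z : Fin (b + 1) → ℂ, Q *ᵥ z = ((∑ j, z j • bT j : T) : Fin q → ℂ) := by
    intro y
    ext i
    simp [Q, Matrix.mulVec, dotProduct, mul_comm]
  obtain ⟨y, z, hy, hz, h⟩ := hSEG a b (Fintype.card ι)
    (fun i => Pᵀ * N ((Fintype.equivFin ι).symm i) * Q) (by omega)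
  refine ⟨P *ᵥ y, ?_, Q *ᵥ z, ?_, ?_, ?_, fun i => ?_⟩
  · rw [hP]; exact Submodule.coe_mem _
  · rw [hQ]; exact Submodule.coe_mem _
  · rw [hP]
    intro h0
    have h1 : (∑ j, y j • bS j : S) = 0 := Subtype.ext h0
    exact hy (funext fun j => Fintype.linearIndependent_iff.1 bS.linearIndependent y h1 j)
  · rw [hQ]
    intro h0
    have h1 : (∑ j, z j • bT j : T) = 0 := Subtype.ext h0
    exact hz (funext fun j => Fintype.linearIndependent_iff.1 bT.linearIndependent z h1 j)
  · have h1 := h (Fintype.equivFin ι i)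
    rw [Equiv.symm_apply_apply] at h1
    rw [← h1, ← Matrix.mulVec_mulVec, ← Matrix.mulVec_mulVec]
    simp only [Matrix.dotProduct_mulVec, Matrix.vecMul_transpose]

variable {m : ℕ} {n : Fin m → ℕ}

/-- the matrix as a bilinear form -/
theorem mf {p : MvPolynomial (Σ i, Fin (n i)) ℤ} {δ : Fin m → ℕ} (h : MultiDeg p δ)
    {u v : Fin m} (huv : u ≠ v) (hu : δ u = 1) (hv : δ v = 1) (x : ∀ i, Fin (n i) → ℂ)
    (y : Fin (n u) → ℂ) (z : Fin (n v) → ℂ) :
    evz p (fl (Function.update (Function.update x u y) v z)) = y ⬝ᵥ (mfR p u v x *ᵥ z) := by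
  have e1 : ∀ t : Fin (n v) → ℂ, evz p (fl (Function.update (Function.update x u y) v t)) =
      ∑ s, evz p (fl (Function.update (Function.update x u (Pi.single s 1)) v t)) * y s := by
    intro t
    rw [Function.update_comm huv, evz_lin h hu]
    refine Finset.sum_congr rfl fun s _ => ?_
    rw [Function.update_comm huv]
  rw [e1]
  simp only [dotProduct, Matrix.mulVec, mfR, Matrix.of_apply]
  refine Finset.sum_congr rfl fun s _ => ?_
  rw [evz_lin h hv, mul_comm]

end SR2

open SR2

theorem sR2 (hSEG : StmtSEG) : StmtSR2 := by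
  classical
  intro K n F d hd hF h2 hsm u v w huv huw hvw R hRu hRv hR s hs hs0 x hxw
  by_contra hlt
  rw [not_le] at hlt
  set M : Matrix (Fin (n u)) (Fin (n v)) ℂ := ∑ e, s e • mfR (F e) u v x with hM
  obtain ⟨e0, he0⟩ : ∃ e0, s e0 ≠ 0 := by
    by_contra hcon
    push Not at hcon
    exact hs0 (funext hcon)
  have hall : ∀ i : Fin 3, i = u ∨ i = v ∨ i = w := by
    intro i; fin_cases i <;> fin_cases u <;> fin_cases v <;> fin_cases w <;> simp_all
  -- the three types of equations
  set Auv : Finset (Fin K) := univ.filter fun e => d e u = 1 ∧ d e v = 1 with hAuv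
  set Au : Finset (Fin K) := univ.filter fun e => d e u = 1 ∧ d e v = 0 with hAu
  set Av : Finset (Fin K) := univ.filter fun e => d e u = 0 ∧ d e v = 1 with hAv
  have htype : ∀ e, (d e u = 1 ∧ d e v = 1) ∨ (d e u = 1 ∧ d e v = 0) ∨ (d e u = 0 ∧ d e v = 1) := by
    intro e
    have h3 : ∑ i, d e i = d e u + d e v + d e w := by
      have : (univ : Finset (Fin 3)) = {u, v, w} := by
        ext i; simpa using hall i
      rw [this, Finset.sum_insert (by simp [huv, huw]), Finset.sum_insert (by simp [hvw]),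
        Finset.sum_singleton]
      ring
    have := h2 e
    have := hd e u
    have := hd e v
    have := hd e w
    omega
  have hcardK : Auv.card + Au.card + Av.card = K := by
    have h4 : Auv.card + Au.card + Av.card = (univ : Finset (Fin K)).card := by
      rw [← Finset.card_union_of_disjoint, ← Finset.card_union_of_disjoint]
      · congr 1
        ext e
        simp only [hAuv, hAu, hAv, mem_union, mem_filter, mem_univ, true_and]
        have := htype e
        tauto
      · rw [Finset.disjoint_left]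
        intro e h5 h6
        simp only [hAuv, hAu, hAv, mem_union, mem_filter, mem_univ, true_and] at h5 h6
        omega
      · rw [Finset.disjoint_left]
        intro e h5 h6
        simp only [hAuv, hAu, mem_filter, mem_univ, true_and] at h5 h6
        omega
    rw [h4, Finset.card_univ, Fintype.card_fin]
  have he0' : e0 ∈ Auv := by
    rw [hAuv, mem_filter]; exact ⟨mem_univ _, hs e0 he0⟩
  -- the kernels
  obtain ⟨KL, hKL, hKLd⟩ := ker_dim (Mᵀ) (fun e : Au => cf F e.1 u x)
  obtain ⟨KR, hKR, hKRd⟩ := ker_dim M (fun e : Av => cf F e.1 v x)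
  rw [Matrix.rank_transpose] at hKLd
  rw [Fintype.card_coe] at hKLd hKRd
  -- the bilinear forms
  let N : (Auv.erase e0) ⊕ Fin (n w) → Matrix (Fin (n u)) (Fin (n v)) ℂ := fun i =>
    Sum.elim (fun e => mfR (F e.1) u v x)
      (fun l => ∑ e, s e • mfR (F e) u v (Function.update x w (Pi.single l 1))) i
  have hcard : Fintype.card ((Auv.erase e0) ⊕ Fin (n w)) + 2 ≤ finrank ℂ KL + finrank ℂ KR := by
    rw [Fintype.card_sum, Fintype.card_coe, Fintype.card_fin, Finset.card_erase_of_mem he0']
    have : 1 ≤ Auv.card := Finset.card_pos.2 ⟨e0, he0'⟩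
    omega
  obtain ⟨y, hy, z, hz, hy0, hz0, hN⟩ := seg hSEG KL KR N (by
    have : 1 ≤ Auv.card := Finset.card_pos.2 ⟨e0, he0'⟩
    omega) (by
    have : 1 ≤ Auv.card := Finset.card_pos.2 ⟨e0, he0'⟩
    omega) hcard
  obtain ⟨hy1, hy2⟩ := hKL y hy
  obtain ⟨hz1, hz2⟩ := hKR z hz
  rw [Matrix.mulVec_transpose] at hy1
  set zt : ∀ i, Fin (n i) → ℂ := Function.update (Function.update x u y) v z with hzt
  have hztu : zt u = y := by rw [hzt, Function.update_of_ne huv, Function.update_self]
  have hztv : zt v = z := by rw [hzt, Function.update_self]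
  have hztw : zt w = x w := by
    rw [hzt, Function.update_of_ne (Ne.symm hvw), Function.update_of_ne (Ne.symm huw)]
  have hzt0 : ∀ i, zt i ≠ 0 := by
    intro i
    rcases hall i with rfl | rfl | rfl
    · rw [hztu]; exact hy0
    · rw [hztv]; exact hz0
    · rw [hztw]; exact hxw
  have hne : ∀ e, e ∈ Auv → e ≠ e0 → evz (F e) (fl zt) = 0 := by
    intro e he hee
    have h5 := (mem_filter.1 he).2
    rw [hzt, mf (hF e) huv h5.1 h5.2]
    exact hN (Sum.inl ⟨e, mem_erase.2 ⟨hee, he⟩⟩)
  have hsum : ∀ (x' : ∀ i, Fin (n i) → ℂ) (y' : Fin (n u) → ℂ) (z' : Fin (n v) → ℂ),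
      ∑ e, s e * evz (F e) (fl (Function.update (Function.update x' u y') v z')) =
        y' ⬝ᵥ ((∑ e, s e • mfR (F e) u v x') *ᵥ z') := by
    intro x' y' z'
    rw [Matrix.sum_mulVec, dotProduct_sum]
    refine Finset.sum_congr rfl fun e _ => ?_
    rw [Matrix.smul_mulVec, dotProduct_smul, smul_eq_mul]
    by_cases h5 : s e = 0
    · rw [h5, zero_mul, zero_mul]
    · rw [mf (hF e) huv (hs e h5).1 (hs e h5).2]
  have hZr : Zr F zt := by
    intro e
    rcases htype e with h5 | h5 | h5
    · by_cases hee : e = e0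
      · subst hee
        have h6 := hsum x y z
        rw [← hM, hz1, dotProduct_zero, ← hzt, Finset.sum_eq_single e] at h6
        · exact (mul_eq_zero.1 h6).resolve_left he0
        · intro e' _ hne'
          by_cases h7 : s e' = 0
          · rw [h7, zero_mul]
          · rw [hne e' (by rw [hAuv, mem_filter]; exact ⟨mem_univ _, hs e' h7⟩) hne', mul_zero]
        · intro h7; exact absurd (mem_univ e) h7
      · exact hne e (by rw [hAuv, mem_filter]; exact ⟨mem_univ _, h5⟩) hee
    · have h6 : evz (F e) (fl zt) = evz (F e) (fl (Function.update x u y)) := by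
        refine indep (hF e) fun i hi => ?_
        rw [hzt, Function.update_of_ne]
        rintro rfl
        exact hi h5.2
      rw [h6, evz_lin (hF e) h5.1]
      exact hy2 ⟨e, by rw [hAu, mem_filter]; exact ⟨mem_univ _, h5⟩⟩
    · have h6 : evz (F e) (fl zt) = evz (F e) (fl (Function.update x v z)) := by
        refine indep (hF e) fun i hi => ?_
        rw [hzt, Function.update_comm huv, Function.update_of_ne]
        rintro rfl
        exact hi h5.1
      rw [h6, evz_lin (hF e) h5.2]
      exact hz2 ⟨e, by rw [hAv, mem_filter]; exact ⟨mem_univ _, h5⟩⟩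
  have hli := Fintype.linearIndependent_iff.1 (hsm zt hzt0 hZr) s ?_ e0
  · exact he0 hli
  funext i t
  have hcoord : (∑ e, s e • fun v' => cf F e v' zt) i t = ∑ e, s e * cf F e i zt t := by
    simp [Finset.sum_apply]
  rw [hcoord]
  change ∑ e, s e * evz (F e) (fl (Function.update zt i (Pi.single t 1))) = 0
  rcases hall i with rfl | rfl | rfl
  · have h6 : Function.update zt i (Pi.single t 1) =
        Function.update (Function.update x i (Pi.single t 1)) v z := by
      rw [hzt, Function.update_comm huv.symm, Function.update_idem]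
    rw [h6, hsum, ← hM, hz1, dotProduct_zero]
  · have h6 : Function.update zt i (Pi.single t 1) =
        Function.update (Function.update x u y) i (Pi.single t 1) := by
      rw [hzt, Function.update_idem]
    rw [h6, hsum, ← hM, Matrix.dotProduct_mulVec, hy1, zero_dotProduct]
  · have h6 : Function.update zt i (Pi.single t 1) =
        Function.update (Function.update (Function.update x i (Pi.single t 1)) u y) v z := by
      rw [hzt, Function.update_comm hvw, Function.update_comm huw]
    rw [h6, hsum]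
    exact hN (Sum.inr t)

end Pool.Agent.T6.H81.BO
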