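import Pool.Agent.T6.H81.BO.Defs3
import Pool.Agent.T6.H81.BO.SR2
import Pool.Agent.T6.H81.BG.S5

/-!
Module SR3: the ranks of the pencils of a smooth complete intersection of multilinear divisors, for
a pair of blocks whose common equations contain at most one further block. The proof of module SR2
(helper29), with any number of blocks.
-/

set_option autoImplicit false

namespace Pool.Agent.T6.H81.BO

open Finset Module Matrix
open Pool.Agent.H548.TL (evz)
open Pool.Agent.T6.H5.TW (fl MultiDeg)
open Pool.Agent.T6.H81.BG (Pt Zr cf)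
open Pool.Agent.T6.H81.BG.S5 (indep evz_lin)

namespace SR3

variable {m K : ℕ} {n : Fin m → ℕ} {F : Fin K → MvPolynomial (Σ i, Fin (n i)) ℤ}
  {d : Fin K → Fin m → ℕ}

theorem card_le (w : Fin m) : Fintype.card {e : Fin K // d e w = 1} ≤ ∑ e, d e w := by
  classical
  rw [Fintype.card_subtype, Finset.card_filter]
  refine Finset.sum_le_sum fun e _ => ?_
  split_ifs with h
  · rw [h]
  · exact Nat.zero_le _

/-- a vector of the block `w` which satisfies all equations which contain it -/
theorem exists_vec (hn : ∀ v, ∑ e, d e v + 1 ≤ n v) (w : Fin m) (y : ∀ i, Fin (n i) → ℂ) :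
    ∃ q : Fin (n w) → ℂ, q ≠ 0 ∧ ∀ e, d e w = 1 → ∑ s, cf F e w y s * q s = 0 := by
  classical
  set A : Matrix {e : Fin K // d e w = 1} (Fin (n w)) ℂ := Matrix.of fun e s => cf F e.1 w y s
    with hA
  have hker : LinearMap.ker A.mulVecLin ≠ ⊥ := by
    apply LinearMap.ker_ne_bot_of_finrank_lt
    rw [Module.finrank_pi, Module.finrank_pi, Fintype.card_fin]
    have h1 := card_le (K := K) (d := d) w
    have h2 := hn w
    omega
  obtain ⟨q, hq, hq0⟩ := Submodule.exists_mem_ne_zero_of_ne_bot hker
  refine ⟨q, hq0, fun e he => ?_⟩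
  rw [LinearMap.mem_ker] at hq
  have := congrFun hq ⟨e, he⟩
  exact this

/-- The blocks of `T` can be chosen so that all equations which contain one of them hold. -/
theorem fill (hd : ∀ e v, d e v ≤ 1) (hF : ∀ e, MultiDeg (F e) (d e))
    (hn : ∀ v, ∑ e, d e v + 1 ≤ n v) (z : ∀ i, Fin (n i) → ℂ) (T : Finset (Fin m)) :
    ∃ y : ∀ i, Fin (n i) → ℂ, (∀ i, i ∉ T → y i = z i) ∧ (∀ i ∈ T, y i ≠ 0) ∧
      ∀ e, (∃ i ∈ T, d e i = 1) → evz (F e) (fl y) = 0 := by
  classical
  induction T using Finset.induction_on with
  | empty => exact ⟨z, fun _ _ => rfl, by simp, fun e he => by simp at he⟩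
  | insert w T hw ih =>
    obtain ⟨y, hy1, hy2, hy3⟩ := ih
    obtain ⟨q, hq0, hq⟩ := exists_vec (F := F) hn w y
    refine ⟨Function.update y w q, ?_, ?_, ?_⟩
    · intro i hi
      rw [Finset.mem_insert, not_or] at hi
      rw [Function.update_of_ne hi.1, hy1 i hi.2]
    · intro i hi
      by_cases hiw : i = w
      · subst hiw
        rw [Function.update_self]
        exact hq0
      · rw [Function.update_of_ne hiw]
        exact hy2 i (Finset.mem_of_mem_insert_of_ne hi hiw)
    · intro e he
      by_cases hew : d e w = 0
      · have h1 : evz (F e) (fl (Function.update y w q)) = evz (F e) (fl y) := by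
          apply indep (hF e)
          intro i hi
          rw [Function.update_of_ne]
          rintro rfl
          exact hi hew
        rw [h1]
        obtain ⟨i, hi, hi1⟩ := he
        refine hy3 e ⟨i, ?_, hi1⟩
        refine Finset.mem_of_mem_insert_of_ne hi ?_
        rintro rfl
        omega
      · have h1 : d e w = 1 := by
          have := hd e w
          omega
        rw [evz_lin (hF e) h1]
        exact hq e h1

end SR3

open SR3

theorem sR3 (hSEG : StmtSEG) : StmtSR3 := by
  classical
  intro m K n F d hd hF h2 hn hsm u v w huv huw hvw hcom R hRu hRv hR s hs hs0 x hxw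
  by_contra hlt
  rw [not_le] at hlt
  set M : Matrix (Fin (n u)) (Fin (n v)) ℂ := ∑ e, s e • mfR (F e) u v x with hM
  obtain ⟨e0, he0⟩ : ∃ e0, s e0 ≠ 0 := by
    by_contra hcon
    push Not at hcon
    exact hs0 (funext hcon)
  -- the equations inside the three blocks
  set I : Fin K → Prop := fun e => ∀ i, d e i ≠ 0 → i = u ∨ i = v ∨ i = w with hI
  set Auv : Finset (Fin K) := univ.filter fun e => d e u = 1 ∧ d e v = 1 with hAuv
  set Au : Finset (Fin K) := univ.filter fun e => I e ∧ d e u = 1 ∧ d e v = 0 with hAu
  set Av : Finset (Fin K) := univ.filter fun e => I e ∧ d e u = 0 ∧ d e v = 1 with hAv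
  have hIuv : ∀ e, d e u = 1 → d e v = 1 → I e := fun e h3 h4 => hcom e h3 h4
  have htype : ∀ e, I e →
      (d e u = 1 ∧ d e v = 1) ∨ (d e u = 1 ∧ d e v = 0) ∨ (d e u = 0 ∧ d e v = 1) := by
    intro e he
    have h3 : ∑ i, d e i = d e u + d e v + d e w := by
      rw [← Finset.sum_subset (subset_univ ({u, v, w} : Finset (Fin m)))]
      · rw [Finset.sum_insert (by simp [huv, huw]), Finset.sum_insert (by simp [hvw]),
          Finset.sum_singleton]
        ring
      · intro i _ hi
        by_contra h
        rcases he i h with rfl | rfl | rfl <;> simp at hi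
    have := h2 e
    have := hd e u
    have := hd e v
    have := hd e w
    omega
  have hcardK : Auv.card + Au.card + Av.card =
      Fintype.card {e : Fin K // ∀ i, d e i ≠ 0 → i = u ∨ i = v ∨ i = w} := by
    rw [Fintype.card_subtype]
    have h4 : (univ.filter fun e : Fin K => ∀ i, d e i ≠ 0 → i = u ∨ i = v ∨ i = w) =
        Auv ∪ Au ∪ Av := by
      ext e
      simp only [hAuv, hAu, hAv, mem_union, mem_filter, mem_univ, true_and]
      constructor
      · intro h
        have h5 := htype e h
        have h6 : I e := h
        tauto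
      · rintro ((h | h) | h)
        · exact hIuv e h.1 h.2
        · exact h.1
        · exact h.1
    rw [h4, Finset.card_union_of_disjoint, Finset.card_union_of_disjoint]
    · rw [Finset.disjoint_left]
      intro e h5 h6
      simp only [hAuv, hAu, mem_filter, mem_univ, true_and] at h5 h6
      omega
    · rw [Finset.disjoint_left]
      intro e h5 h6
      simp only [hAuv, hAu, hAv, mem_union, mem_filter, mem_univ, true_and] at h5 h6
      omega
  have he0' : e0 ∈ Auv := by
    rw [hAuv, mem_filter]; exact ⟨mem_univ _, hs e0 he0⟩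
  have hAuvpos : 1 ≤ Auv.card := Finset.card_pos.2 ⟨e0, he0'⟩
  have hAuc : Auv.card + Au.card ≤ ∑ e, d e u := by
    have h4 : Auv.card + Au.card = (Auv ∪ Au).card := by
      rw [Finset.card_union_of_disjoint]
      rw [Finset.disjoint_left]
      intro e h5 h6
      simp only [hAuv, hAu, mem_filter, mem_univ, true_and] at h5 h6
      omega
    have h5 := card_le (K := K) (d := d) u
    rw [Fintype.card_subtype] at h5
    rw [h4]
    refine le_trans (Finset.card_le_card ?_) h5
    intro e he
    simp only [hAuv, hAu, mem_union, mem_filter, mem_univ, true_and] at he ⊢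
    tauto
  have hAvc : Auv.card + Av.card ≤ ∑ e, d e v := by
    have h4 : Auv.card + Av.card = (Auv ∪ Av).card := by
      rw [Finset.card_union_of_disjoint]
      rw [Finset.disjoint_left]
      intro e h5 h6
      simp only [hAuv, hAv, mem_filter, mem_univ, true_and] at h5 h6
      omega
    have h5 := card_le (K := K) (d := d) v
    rw [Fintype.card_subtype] at h5
    rw [h4]
    refine le_trans (Finset.card_le_card ?_) h5
    intro e he
    simp only [hAuv, hAv, mem_union, mem_filter, mem_univ, true_and] at he ⊢
    tauto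
  -- the kernels
  obtain ⟨KL, hKL, hKLd⟩ := SR2.ker_dim (Mᵀ) (fun e : Au => cf F e.1 u x)
  obtain ⟨KR, hKR, hKRd⟩ := SR2.ker_dim M (fun e : Av => cf F e.1 v x)
  rw [Matrix.rank_transpose] at hKLd
  rw [Fintype.card_coe] at hKLd hKRd
  -- the bilinear forms
  let N : (Auv.erase e0) ⊕ Fin (n w) → Matrix (Fin (n u)) (Fin (n v)) ℂ := fun i =>
    Sum.elim (fun e => mfR (F e.1) u v x)
      (fun l => ∑ e, s e • mfR (F e) u v (Function.update x w (Pi.single l 1))) i
  have hcard : Fintype.card ((Auv.erase e0) ⊕ Fin (n w)) + 2 ≤ finrank ℂ KL + finrank ℂ KR := by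
    rw [Fintype.card_sum, Fintype.card_coe, Fintype.card_fin, Finset.card_erase_of_mem he0']
    omega
  obtain ⟨y, hy, z, hz, hy0, hz0, hN⟩ := SR2.seg hSEG KL KR N (by omega) (by omega) hcard
  obtain ⟨hy1, hy2⟩ := hKL y hy
  obtain ⟨hz1, hz2⟩ := hKR z hz
  rw [Matrix.mulVec_transpose] at hy1
  set z0 : ∀ i, Fin (n i) → ℂ := Function.update (Function.update x u y) v z with hz0d
  have hz0u : z0 u = y := by rw [hz0d, Function.update_of_ne huv, Function.update_self]
  have hz0v : z0 v = z := by rw [hz0d, Function.update_self]
  have hz0w : z0 w = x w := by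
    rw [hz0d, Function.update_of_ne (Ne.symm hvw), Function.update_of_ne (Ne.symm huw)]
  obtain ⟨zt, ht1, ht2, ht3⟩ := fill hd hF hn z0 (univ.filter fun i => i ≠ u ∧ i ≠ v ∧ i ≠ w)
  have htu : zt u = z0 u := ht1 u (by simp)
  have htv : zt v = z0 v := ht1 v (by simp)
  have htw : zt w = z0 w := ht1 w (by simp)
  have hzt0 : ∀ i, zt i ≠ 0 := by
    intro i
    by_cases h3 : i = u
    · subst h3
      rw [htu, hz0u]
      exact hy0
    by_cases h4 : i = v
    · subst h4
      rw [htv, hz0v]
      exact hz0
    by_cases h5 : i = w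
    · subst h5
      rw [htw, hz0w]
      exact hxw
    exact ht2 i (by simp [h3, h4, h5])
  -- the equations inside the three blocks do not see the other blocks
  have hin : ∀ e, I e → evz (F e) (fl zt) = evz (F e) (fl z0) := by
    intro e he
    refine indep (hF e) fun i hi => ?_
    rcases he i hi with rfl | rfl | rfl
    · exact htu
    · exact htv
    · exact htw
  have hin2 : ∀ e, I e → ∀ (j : Fin m) (t : Fin (n j) → ℂ),
      evz (F e) (fl (Function.update zt j t)) = evz (F e) (fl (Function.update z0 j t)) := by
    intro e he j t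
    refine indep (hF e) fun i hi => ?_
    by_cases hij : i = j
    · subst hij
      rw [Function.update_self, Function.update_self]
    · rw [Function.update_of_ne hij, Function.update_of_ne hij]
      rcases he i hi with rfl | rfl | rfl
      · exact htu
      · exact htv
      · exact htw
  have hne : ∀ e, e ∈ Auv → e ≠ e0 → evz (F e) (fl z0) = 0 := by
    intro e he hee
    have h5 := (mem_filter.1 he).2
    rw [hz0d, SR2.mf (hF e) huv h5.1 h5.2]
    exact hN (Sum.inl ⟨e, mem_erase.2 ⟨hee, he⟩⟩)
  have hsum : ∀ (x' : ∀ i, Fin (n i) → ℂ) (y' : Fin (n u) → ℂ) (z' : Fin (n v) → ℂ),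
      ∑ e, s e * evz (F e) (fl (Function.update (Function.update x' u y') v z')) =
        y' ⬝ᵥ ((∑ e, s e • mfR (F e) u v x') *ᵥ z') := by
    intro x' y' z'
    rw [Matrix.sum_mulVec, dotProduct_sum]
    refine Finset.sum_congr rfl fun e _ => ?_
    rw [Matrix.smul_mulVec, dotProduct_smul, smul_eq_mul]
    by_cases h5 : s e = 0
    · rw [h5, zero_mul, zero_mul]
    · rw [SR2.mf (hF e) huv (hs e h5).1 (hs e h5).2]
  have hZr : Zr F zt := by
    intro e
    by_cases hIe : I e
    · rw [hin e hIe]
      rcases htype e hIe with h5 | h5 | h5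
      · by_cases hee : e = e0
        · subst hee
          have h6 := hsum x y z
          rw [← hM, hz1, dotProduct_zero, ← hz0d, Finset.sum_eq_single e] at h6
          · exact (mul_eq_zero.1 h6).resolve_left he0
          · intro e' _ hne'
            by_cases h7 : s e' = 0
            · rw [h7, zero_mul]
            · rw [hne e' (by rw [hAuv, mem_filter]; exact ⟨mem_univ _, hs e' h7⟩) hne', mul_zero]
          · intro h7; exact absurd (mem_univ e) h7
        · exact hne e (by rw [hAuv, mem_filter]; exact ⟨mem_univ _, h5⟩) hee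
      · have h6 : evz (F e) (fl z0) = evz (F e) (fl (Function.update x u y)) := by
          refine indep (hF e) fun i hi => ?_
          rw [hz0d, Function.update_of_ne]
          rintro rfl
          exact hi h5.2
        rw [h6, evz_lin (hF e) h5.1]
        exact hy2 ⟨e, by rw [hAu, mem_filter]; exact ⟨mem_univ _, hIe, h5⟩⟩
      · have h6 : evz (F e) (fl z0) = evz (F e) (fl (Function.update x v z)) := by
          refine indep (hF e) fun i hi => ?_
          rw [hz0d, Function.update_comm huv, Function.update_of_ne]
          rintro rfl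
          exact hi h5.1
        rw [h6, evz_lin (hF e) h5.2]
        exact hz2 ⟨e, by rw [hAv, mem_filter]; exact ⟨mem_univ _, hIe, h5⟩⟩
    · obtain ⟨i, hi1, hi2⟩ : ∃ i, d e i ≠ 0 ∧ ¬ (i = u ∨ i = v ∨ i = w) := by
        by_contra hcon
        push Not at hcon
        exact hIe fun i hi => hcon i hi
      push Not at hi2
      refine ht3 e ⟨i, by simp [hi2], ?_⟩
      have := hd e i
      omega
  have hli := Fintype.linearIndependent_iff.1 (hsm zt hzt0 hZr) s ?_ e0
  · exact he0 hli
  funext i t
  have hcoord : (∑ e, s e • fun v' => cf F e v' zt) i t = ∑ e, s e * cf F e i zt t := by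
    simp [Finset.sum_apply]
  rw [hcoord]
  have hsw : ∑ e, s e * cf F e i zt t =
      ∑ e, s e * evz (F e) (fl (Function.update z0 i (Pi.single t 1))) := by
    refine Finset.sum_congr rfl fun e _ => ?_
    by_cases h5 : s e = 0
    · rw [h5, zero_mul, zero_mul]
    · have h6 := hs e h5
      congr 1
      exact hin2 e (hIuv e h6.1 h6.2) i _
  by_cases h3 : i = u
  · subst h3
    rw [hsw]
    have h6 : Function.update z0 i (Pi.single t 1) =
        Function.update (Function.update x i (Pi.single t 1)) v z := by
      rw [hz0d, Function.update_comm huv.symm, Function.update_idem]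
    rw [h6, hsum, ← hM, hz1, dotProduct_zero]
    rfl
  by_cases h4 : i = v
  · subst h4
    rw [hsw]
    have h6 : Function.update z0 i (Pi.single t 1) =
        Function.update (Function.update x u y) i (Pi.single t 1) := by
      rw [hz0d, Function.update_idem]
    rw [h6, hsum, ← hM, Matrix.dotProduct_mulVec, hy1, zero_dotProduct]
    rfl
  by_cases h5 : i = w
  · subst h5
    rw [hsw]
    have h6 : Function.update z0 i (Pi.single t 1) =
        Function.update (Function.update (Function.update x i (Pi.single t 1)) u y) v z := by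
      rw [hz0d, Function.update_comm hvw, Function.update_comm huw]
    rw [h6, hsum]
    exact hN (Sum.inr t)
  · change ∑ e, s e * cf F e i zt t = 0
    refine Finset.sum_eq_zero fun e _ => ?_
    by_cases h7 : s e = 0
    · rw [h7, zero_mul]
    · have h8 := hs e h7
      have h9 : d e i = 0 := by
        by_contra h
        rcases hcom e h8.1 h8.2 i h with h10 | h10 | h10
        · exact h3 h10
        · exact h4 h10
        · exact h5 h10
      have h10 : cf F e i zt t = evz (F e) (fl zt) := by
        refine indep (hF e) fun j hj => ?_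
        rw [Function.update_of_ne]
        rintro rfl
        exact hj h9
      rw [h10, hZr e, mul_zero]

end Pool.Agent.T6.H81.BO
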