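import Mathlib
import Pool.Agent.T6.H81.BO.Fin12

/-!
Smooth complete intersections of divisors of type `(1, 1, 1)`: the asymptotic formula on every dense
open subset.
-/

set_option autoImplicit false

namespace Pool.Agent.T6.H81.BO

open Finset Module Matrix Filter Topology
open Pool.Agent.H548.WM (ht bx mem_bx Rep ht_pos)
open Pool.Agent.H548.BL (lat mem_lat rep_ne)
open Pool.Agent.H548.TL (evz evz_map evz_int deg_evz)
open Pool.Agent.T6.H5.TW (fl MultiDeg)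
open Pool.Agent.T6.H81.BG
open Pool.Agent.T6.H81.BH (StmtZ0 StmtPol StmtS6G)
open Pool.Agent.T6.H81.BN (BP StmtBB StmtNI StmtCH5 StmtBPQ StmtSS)
open Pool.Agent.T6.H81

namespace Fin13

/-- The equations which contain the block `v`. -/
def eAll (k m : ℕ) (v : Fin m) : {e : Fin k // (fun (_ : Fin k) (_ : Fin m) => 1) e v = 1} ≃
    Fin k where
  toFun e := e.1
  invFun e := ⟨e, rfl⟩
  left_inv _ := rfl
  right_inv _ := rfl

theorem third : ∀ u v : Fin 3, ∃ w : Fin 3, u ≠ w ∧ v ≠ w := by decide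

/-- **Smooth complete intersections of divisors of type `(1, 1, 1)`.** -/
theorem main (hB : StmtB3) (hC : StmtC3) (hP : StmtP3) (hH : StmtH3) (hW : StmtW3) (hR3 : StmtR3)
    (hZ : StmtZ3) (hS3 : StmtS3) (hS6 : StmtS6) (hS8 : StmtS8) (hZ0 : StmtZ0) (hPol : StmtPol)
    (hSG : StmtS6G) (hBB : StmtBB) (hNI : StmtNI) (hCH : StmtCH5) (hBPQ : StmtBPQ)
    (hBPS : StmtBPS) (hSS : StmtSS) (hSR : StmtSR)
    {k : ℕ} {n : Fin 3 → ℕ} (hk : 1 ≤ k)
    (hn : ∀ u v w : Fin 3, u ≠ v → u ≠ w → v ≠ w → n w + 9 * k ≤ n u + n v + 1)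
    (F : Fin k → MvPolynomial (Σ i, Fin (n i)) ℤ) (hF : ∀ e, MultiDeg (F e) (fun _ => 1))
    (hsm : ∀ z : ∀ v, Fin (n v) → ℂ, (∀ v, z v ≠ 0) → Zr F z →
      LinearIndependent ℂ (fun (e : Fin k) (v : Fin 3) => cf F e v z))
    (ψ : (∀ v, Fin (n v) → ℝ) → ℝ) (S : Finset Nat.Primes)
    (φ : ∀ p : Nat.Primes, (∀ v, Fin (n v) → ℚ_[p]) → ℝ) (hψ : LFs {x | Zr F x} ψ)
    (hφ : ∀ p ∈ S, LFs {x | Zr F x} (φ p)) :
    (∃ z : ∀ i, Fin (n i) → ℂ, (∀ v, z v ≠ 0) ∧ Zr F z ∧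
      ∀ v, LinearIndependent ℂ (fun e => cf F e v z)) ∧
    ∃ c : ℝ, 0 < c ∧ ∀ G : MvPolynomial (Σ i, Fin (n i)) ℤ,
      (∃ z : ∀ i, Fin (n i) → ℂ, (∀ v, z v ≠ 0) ∧ Zr F z ∧
        (∀ v, LinearIndependent ℂ (fun e => cf F e v z)) ∧ evz G (fl z) ≠ 0) →
      Tendsto (fun B : ℝ => ({x : Pt n | (∀ v, Rep (x v)) ∧ Zr F x ∧
        (∀ v, LinearIndependent ℤ (fun e => cf F e v x)) ∧ evz G (fl x) ≠ 0 ∧
        (∏ v, (ht (x v) : ℝ) ^ (n v - k)) * Phs ψ S φ x ≤ B}.ncard : ℝ) /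
          (B * Real.log B ^ 2)) atTop (𝓝 c) := by
  have h9 : ∀ v, 9 * k ≤ n v + 1 := by
    intro v
    have h0 := hn 0 1 2 (by decide) (by decide) (by decide)
    have h1 := hn 0 2 1 (by decide) (by decide) (by decide)
    have h2 := hn 1 2 0 (by decide) (by decide) (by decide)
    match v with
    | 0 => omega
    | 1 => omega
    | 2 => omega
  have e1 : ∀ v : Fin 3, ∑ e : Fin k, (fun (_ : Fin k) (_ : Fin 3) => 1) e v = k := by
    intro v
    rw [Finset.sum_const, card_univ, Fintype.card_fin, smul_eq_mul, mul_one]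
  have e3 : ∀ v : Fin 3, ∑ e : Fin k, (fun (_ : Fin k) (_ : Fin 3) => 1) e v *
      ∑ i, (fun (_ : Fin k) (_ : Fin 3) => 1) e i = 3 * k := by
    intro v
    simp only [Finset.sum_const, card_univ, Fintype.card_fin, smul_eq_mul, mul_one, one_mul]
    ring
  have hp : ∀ u v : Fin 3, u ≠ v → ∀ e : Fin k, (fun (_ : Fin k) (_ : Fin 3) => 1) e u = 1 →
      (fun (_ : Fin k) (_ : Fin 3) => 1) e v = 1 →
      Fin12.Pair F (fun _ _ => 1) u v := by
    intro u v huv e _ _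
    refine Or.inr fun s _ hs0 x hx => ?_
    obtain ⟨w, hw1, hw2⟩ : ∃ w : Fin 3, u ≠ w ∧ v ≠ w := third u v
    have := h9 u
    have := h9 v
    have := hn u v w huv hw1 hw2
    rw [e1 u, e3 v]
    exact hSR k n F hF hsm u v w huv hw1 hw2 (k + 3 * k) (by omega) (by omega) (by omega) s hs0 x
      (hx w)
  have hli : ∀ (R : Type) [CommRing R] (x : ∀ i, Fin (n i) → R) (v : Fin 3),
      LinearIndependent R (fun e : {e : Fin k // (fun (_ : Fin k) (_ : Fin 3) => 1) e v = 1} =>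
        cf F e.1 v x) ↔ LinearIndependent R (fun e => cf F e v x) := fun R _ x v =>
    linearIndependent_equiv (eAll k 3 v) (f := fun e => cf F e v x)
  obtain ⟨⟨z, hz1, hz2, hz3⟩, c, hc, h⟩ := Fin12.main hB hC hP hH hW hR3 hZ hS3 hS6 hS8 hZ0 hPol hSG
    hBB hNI hCH hBPQ hBPS hSS (m := 2) (n := n) F (fun _ _ => 1) (fun _ _ => le_rfl) hF
    (fun e => by simp) (fun v => by
      have := h9 v
      omega) hp hsm ψ S φ hψ hφ
  refine ⟨⟨z, hz1, hz2, fun v => (hli ℂ z v).1 (hz3 v)⟩, c, hc, fun G hG => ?_⟩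
  obtain ⟨z', h1, h2, h3, h4⟩ := hG
  refine (h G ⟨z', h1, h2, fun v => (hli ℂ z' v).2 (h3 v), h4⟩).congr fun B => ?_
  congr 3
  ext x
  simp only [Set.mem_ofPred_eq]
  refine and_congr_right fun _ => and_congr_right fun _ => and_congr ?_ (and_congr_right fun _ => ?_)
  · exact forall_congr' fun v => hli ℤ x v
  · have : ∀ v : Fin 3, n v - ∑ e : Fin k, 1 = n v - k := fun v => by
      rw [Finset.sum_const, card_univ, Fintype.card_fin, smul_eq_mul, mul_one]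
    simp only [this]

end Fin13

end Pool.Agent.T6.H81.BO
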