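import Mathlib
import Pool.Agent.T6.H81.BO.Fin12
import Pool.Agent.T6.H81.BO.Defs2

/-!
Smooth complete intersections of multilinear divisors in products of three projective spaces: the
asymptotic formula on every dense open subset.
-/

set_option autoImplicit false

namespace Pool.Agent.T6.H81.BO

open Finset Module Matrix Filter Topology
open Pool.Agent.H548.WM (ht bx mem_bx Rep ht_pos)
open Pool.Agent.H548.BL (lat mem_lat rep_ne)
open Pool.Agent.H548.TL (evz evz_map evz_int deg_evz)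
open Pool.Agent.T6.H5.TW (fl MultiDeg)
open Pool.Agent.T6.H81.BG
open Pool.Agent.T6.H81.BH (StmtZ0 StmtPol StmtS6G)
open Pool.Agent.T6.H81.BN (BP StmtBB StmtNI StmtCH5 StmtBPQ StmtSS)
open Pool.Agent.T6.H81

namespace Fin14

theorem third : ∀ u v : Fin 3, ∃ w : Fin 3, u ≠ w ∧ v ≠ w := by decide

/-- **Smooth complete intersections of multilinear divisors in three factors.** -/
theorem main (hB : StmtB3) (hC : StmtC3) (hP : StmtP3) (hH : StmtH3) (hW : StmtW3) (hR3 : StmtR3)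
    (hZ : StmtZ3) (hS3 : StmtS3) (hS6 : StmtS6) (hS8 : StmtS8) (hZ0 : StmtZ0) (hPol : StmtPol)
    (hSG : StmtS6G) (hBB : StmtBB) (hNI : StmtNI) (hCH : StmtCH5) (hBPQ : StmtBPQ)
    (hBPS : StmtBPS) (hSS : StmtSS) (hSR : StmtSR2)
    {K : ℕ} {n : Fin 3 → ℕ} (hK : 1 ≤ K)
    (hn : ∀ u v w : Fin 3, u ≠ v → u ≠ w → v ≠ w → n w + 9 * K ≤ n u + n v + 1)
    (F : Fin K → MvPolynomial (Σ i, Fin (n i)) ℤ) (d : Fin K → Fin 3 → ℕ)
    (hd1 : ∀ e v, d e v ≤ 1) (hF : ∀ e, MultiDeg (F e) (d e)) (hd2 : ∀ e, 2 ≤ ∑ v, d e v)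
    (hsm : ∀ z : ∀ v, Fin (n v) → ℂ, (∀ v, z v ≠ 0) → Zr F z →
      LinearIndependent ℂ (fun (e : Fin K) (v : Fin 3) => cf F e v z))
    (ψ : (∀ v, Fin (n v) → ℝ) → ℝ) (S : Finset Nat.Primes)
    (φ : ∀ p : Nat.Primes, (∀ v, Fin (n v) → ℚ_[p]) → ℝ) (hψ : LFs {x | Zr F x} ψ)
    (hφ : ∀ p ∈ S, LFs {x | Zr F x} (φ p)) :
    (∃ z : ∀ i, Fin (n i) → ℂ, (∀ v, z v ≠ 0) ∧ Zr F z ∧
      ∀ v, LinearIndependent ℂ (fun e : {e : Fin K // d e v = 1} => cf F e.1 v z)) ∧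
    ∃ c : ℝ, 0 < c ∧ ∀ G : MvPolynomial (Σ i, Fin (n i)) ℤ,
      (∃ z : ∀ i, Fin (n i) → ℂ, (∀ v, z v ≠ 0) ∧ Zr F z ∧
        (∀ v, LinearIndependent ℂ (fun e : {e : Fin K // d e v = 1} => cf F e.1 v z)) ∧
        evz G (fl z) ≠ 0) →
      Tendsto (fun B : ℝ => ({x : Pt n | (∀ v, Rep (x v)) ∧ Zr F x ∧
        (∀ v, LinearIndependent ℤ (fun e : {e : Fin K // d e v = 1} => cf F e.1 v x)) ∧
        evz G (fl x) ≠ 0 ∧
        (∏ v, (ht (x v) : ℝ) ^ (n v - ∑ e, d e v)) * Phs ψ S φ x ≤ B}.ncard : ℝ) /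
          (B * Real.log B ^ 2)) atTop (𝓝 c) := by
  have h9 : ∀ v, 9 * K ≤ n v + 1 := by
    intro v
    have h0 := hn 0 1 2 (by decide) (by decide) (by decide)
    have h1 := hn 0 2 1 (by decide) (by decide) (by decide)
    have h2 := hn 1 2 0 (by decide) (by decide) (by decide)
    match v with
    | 0 => omega
    | 1 => omega
    | 2 => omega
  have hk : ∀ v, ∑ e, d e v ≤ K := by
    intro v
    calc ∑ e, d e v ≤ ∑ _e : Fin K, 1 := Finset.sum_le_sum fun e _ => hd1 e v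
      _ = K := by simp
  have h3 : ∀ e, ∑ i, d e i ≤ 3 := by
    intro e
    calc ∑ i, d e i ≤ ∑ _i : Fin 3, 1 := Finset.sum_le_sum fun i _ => hd1 e i
      _ = 3 := by simp
  have hs : ∀ v, ∑ e, d e v * ∑ i, d e i ≤ 3 * K := by
    intro v
    calc ∑ e, d e v * ∑ i, d e i ≤ ∑ _e : Fin K, 1 * 3 :=
          Finset.sum_le_sum fun e _ => Nat.mul_le_mul (hd1 e v) (h3 e)
      _ = 3 * K := by
          rw [Finset.sum_const, card_univ, Fintype.card_fin, smul_eq_mul]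
          ring
  have hp : ∀ u v : Fin 3, u ≠ v → ∀ e : Fin K, d e u = 1 → d e v = 1 →
      Fin12.Pair F d u v := by
    intro u v huv e _ _
    refine Or.inr fun s hs1 hs0 x hx => ?_
    obtain ⟨w, hw1, hw2⟩ : ∃ w : Fin 3, u ≠ w ∧ v ≠ w := third u v
    have := h9 u
    have := h9 v
    have := hn u v w huv hw1 hw2
    have := hk u
    have := hs v
    exact hSR K n F d hd1 hF hd2 hsm u v w huv hw1 hw2 _ (by omega) (by omega) (by omega) s hs1
      hs0 x (hx w)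
  exact Fin12.main hB hC hP hH hW hR3 hZ hS3 hS6 hS8 hZ0 hPol hSG hBB hNI hCH hBPQ hBPS hSS
    (m := 2) (n := n) F d hd1 hF hd2 (fun v => by
      have := h9 v
      omega) hp hsm ψ S φ hψ hφ

end Fin14

end Pool.Agent.T6.H81.BO
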