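import Mathlib
import Pool.Agent.T6.H81.BO.Defs
import Pool.Agent.T6.H81.BG.S3

/-!
The ranks of smooth complete intersections of divisors of type `(1, 1, 1)`.
-/

set_option autoImplicit false

namespace Pool.Agent.T6.H81.BO

open Finset Module Matrix
open Pool.Agent.H548.TL (evz)
open Pool.Agent.T6.H5.TW (fl MultiDeg)
open Pool.Agent.T6.H81.BG (Zr cf)
open Pool.Agent.T6.H81.BG.S34 (evz_lin)

namespace SRA

variable {m : ℕ} {n : Fin m → ℕ}

theorem lin1 {p : MvPolynomial (Σ i, Fin (n i)) ℤ} (h : MultiDeg p (fun _ => 1))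
    (x : ∀ i, Fin (n i) → ℂ) (v : Fin m) (z : Fin (n v) → ℂ) :
    evz p (fl (Function.update x v z)) =
      ∑ t, evz p (fl (Function.update x v (Pi.single t 1))) * z t := by
  have h1 := evz_lin h (Function.update x v z) (v := v) rfl
  rw [h1]
  refine Finset.sum_congr rfl fun t _ => ?_
  rw [Function.update_idem, Function.update_self]

/-- The bilinear form of the matrix `mfR`. -/
theorem g1 {p : MvPolynomial (Σ i, Fin (n i)) ℤ} (h : MultiDeg p (fun _ => 1)) {u v : Fin m}
    (huv : u ≠ v) (x : ∀ i, Fin (n i) → ℂ) (y : Fin (n u) → ℂ) (z : Fin (n v) → ℂ) :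
    y ⬝ᵥ (mfR p u v x *ᵥ z) = evz p (fl (Function.update (Function.update x u y) v z)) := by
  have h1 : ∀ s, (mfR p u v x *ᵥ z) s =
      evz p (fl (Function.update (Function.update x u (Pi.single s 1)) v z)) := by
    intro s
    rw [lin1 h]
    rfl
  rw [Function.update_comm huv y z x, lin1 h]
  refine Finset.sum_congr rfl fun s _ => ?_
  rw [h1, Function.update_comm huv, mul_comm]

/-- Common zeros of bilinear forms, with any index set. -/
theorem seg' (hSEG : StmtSEG) {a b : ℕ} {ι : Type} [Fintype ι]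
    (B : ι → Matrix (Fin (a + 1)) (Fin (b + 1)) ℂ) (h : Fintype.card ι ≤ a + b) :
    ∃ (y : Fin (a + 1) → ℂ) (z : Fin (b + 1) → ℂ), y ≠ 0 ∧ z ≠ 0 ∧
      ∀ i, y ⬝ᵥ (B i *ᵥ z) = 0 := by
  obtain ⟨y, z, hy, hz, hB⟩ := hSEG a b _ (fun i => B ((Fintype.equivFin ι).symm i)) h
  refine ⟨y, z, hy, hz, fun i => ?_⟩
  have := hB (Fintype.equivFin ι i)
  rwa [Equiv.symm_apply_apply] at this

/-- Common zeros of bilinear forms on two subspaces. -/
theorem segK (hSEG : StmtSEG) {p q : ℕ} (U : Submodule ℂ (Fin p → ℂ)) (V : Submodule ℂ (Fin q → ℂ))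
    {ι : Type} [Fintype ι] (B : ι → Matrix (Fin p) (Fin q) ℂ) (hU : 1 ≤ finrank ℂ U)
    (hV : 1 ≤ finrank ℂ V) (h : Fintype.card ι + 2 ≤ finrank ℂ U + finrank ℂ V) :
    ∃ y ∈ U, ∃ z ∈ V, y ≠ 0 ∧ z ≠ 0 ∧ ∀ i, y ⬝ᵥ (B i *ᵥ z) = 0 := by
  obtain ⟨a, ha⟩ : ∃ a, finrank ℂ U = a + 1 := ⟨_, (Nat.succ_pred_eq_of_pos hU).symm⟩
  obtain ⟨b, hb⟩ : ∃ b, finrank ℂ V = b + 1 := ⟨_, (Nat.succ_pred_eq_of_pos hV).symm⟩
  let βU := finBasisOfFinrankEq ℂ U ha
  let βV := finBasisOfFinrankEq ℂ V hb
  obtain ⟨c, d, hc, hd, hB⟩ := seg' hSEG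
    (fun i => (Matrix.of fun (s : Fin (a + 1)) (t : Fin (b + 1)) =>
      ((βU s : Fin p → ℂ) ⬝ᵥ (B i *ᵥ (βV t : Fin q → ℂ)) : ℂ))) (by omega)
  refine ⟨((∑ s, c s • βU s : U) : Fin p → ℂ), Submodule.coe_mem _,
    ((∑ t, d t • βV t : V) : Fin q → ℂ), Submodule.coe_mem _, ?_, ?_, fun i => ?_⟩
  · intro h0
    apply hc
    have h1 : (∑ s, c s • βU s : U) = 0 := Subtype.ext h0
    exact funext (Fintype.linearIndependent_iff.1 βU.linearIndependent c h1)
  · intro h0
    apply hd
    have h1 : (∑ s, d s • βV s : V) = 0 := Subtype.ext h0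
    exact funext (Fintype.linearIndependent_iff.1 βV.linearIndependent d h1)
  · rw [← hB i]
    simp only [Submodule.coe_sum, Submodule.coe_smul, Matrix.mulVec_sum, Matrix.mulVec_smul,
      sum_dotProduct, dotProduct_sum, smul_dotProduct, dotProduct_smul, smul_eq_mul]
    change _ = ∑ s, c s * ∑ t, ((βU s : Fin p → ℂ) ⬝ᵥ (B i *ᵥ (βV t : Fin q → ℂ))) * d t
    simp only [Finset.mul_sum]
    rw [Finset.sum_comm]
    refine Finset.sum_congr rfl fun s _ => Finset.sum_congr rfl fun t _ => ?_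
    ring

theorem ker_right {p q : ℕ} (M : Matrix (Fin p) (Fin q) ℂ) :
    finrank ℂ (LinearMap.ker M.mulVecLin) + M.rank = q := by
  have := LinearMap.finrank_range_add_finrank_ker M.mulVecLin
  rw [finrank_fin_fun] at this
  unfold Matrix.rank
  omega

theorem three : ∀ u v w : Fin 3, u ≠ v → u ≠ w → v ≠ w → ∀ i, i = u ∨ i = v ∨ i = w := by
  decide

end SRA

open SRA in
/-- Module SR. -/
theorem sR (hSEG : StmtSEG) : StmtSR := by
  classical
  intro k n F hF hsm u v w huv huw hvw R hRu hRv hR s hs x hx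
  by_contra hlt
  push Not at hlt
  set M : Matrix (Fin (n u)) (Fin (n v)) ℂ := ∑ e, s e • mfR (F e) u v x with hM
  obtain ⟨e0, he0⟩ : ∃ e, s e ≠ 0 := by
    by_contra hc
    push Not at hc
    exact hs (funext hc)
  have hk : 1 ≤ k := lt_of_le_of_lt (Nat.zero_le _) e0.2
  have h1 := ker_right M
  have h2 := ker_right Mᵀ
  rw [Matrix.rank_transpose] at h2
  let N : Fin (n w) → Matrix (Fin (n u)) (Fin (n v)) ℂ := fun τ =>
    ∑ e, s e • mfR (F e) u v (Function.update x w (Pi.single τ 1))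
  obtain ⟨y, hy, z, hz, hy0, hz0, hB⟩ := segK hSEG (LinearMap.ker Mᵀ.mulVecLin)
    (LinearMap.ker M.mulVecLin) (ι := {e : Fin k // e ≠ e0} ⊕ Fin (n w))
    (Sum.elim (fun e => mfR (F e.1) u v x) N) (by omega) (by omega) (by
      rw [Fintype.card_sum, Fintype.card_fin, Fintype.card_subtype_compl, Fintype.card_fin,
        Fintype.card_unique]
      omega)
  have hMz : M *ᵥ z = 0 := by simpa using hz
  have hMy : y ᵥ* M = 0 := by
    simpa [Matrix.mulVec_transpose] using hy
  -- sums of bilinear forms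
  have hsum : ∀ (x' : ∀ i, Fin (n i) → ℂ) (y' : Fin (n u) → ℂ) (z' : Fin (n v) → ℂ),
      ∑ e, s e * evz (F e) (fl (Function.update (Function.update x' u y') v z')) =
        y' ⬝ᵥ ((∑ e, s e • mfR (F e) u v x') *ᵥ z') := by
    intro x' y' z'
    rw [Matrix.sum_mulVec, dotProduct_sum]
    refine Finset.sum_congr rfl fun e _ => ?_
    rw [Matrix.smul_mulVec, dotProduct_smul, g1 (hF e) huv, smul_eq_mul]
  set zt : ∀ i, Fin (n i) → ℂ := Function.update (Function.update x u y) v z with hzt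
  have hzv : zt v = z := by rw [hzt, Function.update_self]
  have hzu : zt u = y := by rw [hzt, Function.update_of_ne huv, Function.update_self]
  have hzw : zt w = x w := by
    rw [hzt, Function.update_of_ne (Ne.symm hvw), Function.update_of_ne (Ne.symm huw)]
  have hall : ∀ i : Fin 3, i = u ∨ i = v ∨ i = w := three u v w huv huw hvw
  have hne : ∀ i, zt i ≠ 0 := by
    intro i
    rcases hall i with rfl | rfl | rfl
    · rwa [hzu]
    · rwa [hzv]
    · rwa [hzw]
  have hzr1 : ∀ e, e ≠ e0 → evz (F e) (fl zt) = 0 := by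
    intro e he
    have := hB (Sum.inl ⟨e, he⟩)
    rw [Sum.elim_inl, g1 (hF e) huv] at this
    exact this
  have hzr : Zr F zt := by
    intro e
    by_cases he : e = e0
    · subst he
      have h3 := hsum x y z
      rw [← hM, hMz, dotProduct_zero, Finset.sum_eq_single e] at h3
      · exact (mul_eq_zero.1 h3).resolve_left he0
      · intro e' _ he'
        rw [hzr1 e' he', mul_zero]
      · intro h
        exact absurd (mem_univ _) h
    · exact hzr1 e he
  have hli := hsm zt hne hzr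
  rw [Fintype.linearIndependent_iff] at hli
  refine he0 (hli s ?_ e0)
  funext i
  rw [Finset.sum_apply]
  rcases hall i with rfl | rfl | rfl
  · -- block `u`
    funext t
    rw [Finset.sum_apply]
    have h3 := hsum x (Pi.single t 1) z
    rw [← hM, hMz, dotProduct_zero] at h3
    rw [Pi.zero_apply, Pi.zero_apply, ← h3]
    refine Finset.sum_congr rfl fun e _ => ?_
    rw [Pi.smul_apply, Pi.smul_apply, smul_eq_mul]
    congr 1
    unfold cf
    rw [hzt, Function.update_comm (Ne.symm huv), Function.update_idem]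
  · funext t
    rw [Finset.sum_apply]
    have h3 := hsum x y (Pi.single t 1)
    rw [← hM, Matrix.dotProduct_mulVec, hMy, zero_dotProduct] at h3
    rw [Pi.zero_apply, Pi.zero_apply, ← h3]
    refine Finset.sum_congr rfl fun e _ => ?_
    rw [Pi.smul_apply, Pi.smul_apply, smul_eq_mul]
    congr 1
    unfold cf
    rw [hzt, Function.update_idem]
  · funext t
    rw [Finset.sum_apply]
    have h3 := hsum (Function.update x i (Pi.single t 1)) y z
    have h4 := hB (Sum.inr t)
    rw [Sum.elim_inr] at h4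
    rw [show (∑ e, s e • mfR (F e) u v (Function.update x i (Pi.single t 1))) = N t from rfl, h4]
      at h3
    rw [Pi.zero_apply, Pi.zero_apply, ← h3]
    refine Finset.sum_congr rfl fun e _ => ?_
    rw [Pi.smul_apply, Pi.smul_apply, smul_eq_mul]
    congr 1
    unfold cf
    rw [hzt, Function.update_comm hvw, Function.update_comm huw]

end Pool.Agent.T6.H81.BO
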